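import Pool.Agent.Work.MP_03df5c_pi.Even3
import Pool.Agent.Work.MP_03df5c_all.Zeta

/-!
# The `p`-adic zeta value at `2` of the Frobenius description is zero (end)
-/

open Finset PowerSeries

namespace Pool.Agent.Work.MP_03df5c_pi

open Pool.Agent.Work.MP_03df5c_all Pool.Agent.Work.MP_03df5c_h91

variable {p : ℕ} [hp : Fact p.Prime]
variable {G : List Bool → PowerSeries ℚ_[p]} {b : List Bool → ℚ_[p]}

lemma oc_ell_one (hF : IsFrobenius p G b) : Overconvergent (ell p 1) := by
  rw [← G_letter hF false]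
  exact hF.oc _

lemma valueOne_letter (hF : IsFrobenius p G b) (c : Bool) : valueOne (G [c]) = 0 := by
  rw [G_letter hF c]
  exact valueOne_ell 1 (oc_ell_one hF)

lemma b_two (hF : IsFrobenius p G b) : b [false, true] = 0 := by
  obtain ⟨hb0, hbA, hbB⟩ := stmt_BLET p G b hF
  rw [b_eq hF (by simp)]
  simp [cmul, letter, sum_range_succ, valueOne_letter hF]

theorem G_two (hF : IsFrobenius p G b) :
    G [false, true] = ell p 2 + C (2⁻¹ : ℚ_[p]) * (ell p 1 * ell p 1) := by
  obtain ⟨hb0, hbA, hbB⟩ := stmt_BLET p G b hF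
  have h1 := hF.ode [false, true]
  simp [cmul, letter, sum_range_succ, hF.nil, hb0, hbA, hbB, b_two hF, G_letter hF] at h1
  have hC : d⁄dX ℚ_[p] (C (2⁻¹ : ℚ_[p])) = 0 := by
    have : (C (2⁻¹ : ℚ_[p])) = algebraMap ℚ_[p] (PowerSeries ℚ_[p]) 2⁻¹ := rfl
    rw [this, Derivation.map_algebraMap]
  have h2 : d⁄dX ℚ_[p] (ell p 2 + C (2⁻¹ : ℚ_[p]) * (ell p 1 * ell p 1)) =
      d⁄dX ℚ_[p] (ell p 2) + ell p 1 * d⁄dX ℚ_[p] (ell p 1) := by
    rw [map_add, Derivation.leibniz, Derivation.leibniz, hC]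
    simp only [smul_eq_mul, mul_zero, add_zero]
    have h3 : C (2⁻¹ : ℚ_[p]) * 2 = 1 := by
      have : (2 : PowerSeries ℚ_[p]) = C (2 : ℚ_[p]) := (map_ofNat C 2).symm
      rw [this, ← map_mul, inv_mul_cancel₀ two_ne_zero, map_one]
    linear_combination (ell p 1 * d⁄dX ℚ_[p] (ell p 1)) * h3
  apply eq_of_derivative
  · apply mul_left_cancel₀ (lhs_ne_zero (p := p))
    rw [h2]
    have e1 := d_ell_one (p := p)
    have e2 := d_ell_two (p := p)
    linear_combination h1 - (p : PowerSeries ℚ_[p]) * frobD p * e2 -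
      X * (1 - X) * ell p 1 * e1
  · rw [hF.zero _ (by simp), map_add, constantCoeff_ell two_ne_zero, map_mul, map_mul,
      constantCoeff_ell one_ne_zero]
    simp

theorem valueOne_two (hF : IsFrobenius p G b) : valueOne (G [false, true]) = 0 := by
  have h1 := oc_ell_one hF
  have h2 : Overconvergent (C (2⁻¹ : ℚ_[p]) * (ell p 1 * ell p 1)) := oc_mul (oc_C _) (oc_mul h1 h1)
  have h3 : ell p 2 = G [false, true] - C (2⁻¹ : ℚ_[p]) * (ell p 1 * ell p 1) := by
    rw [G_two hF]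
    ring
  have h4 : Overconvergent (ell p 2) := by
    rw [h3]
    exact oc_sub (hF.oc _) h2
  rw [G_two hF, valueOne_add h4 h2, valueOne_ell 2 h4, valueOne_mul (oc_C _) (oc_mul h1 h1),
    valueOne_mul h1 h1, valueOne_ell 1 h1]
  ring

theorem assoc_letter {Ψ : List Bool → ℚ_[p]} (h : IsAssociator p Ψ) (c : Bool) : Ψ [c] = 0 := by
  obtain ⟨G, b, hF, h1, h2⟩ := h
  obtain ⟨hb0, hbA, hbB⟩ := stmt_BLET p G b hF
  have h3 := congrFun h2 [c]
  rw [cmul_subSeries (by simp only [hF.nil, valueOne_one]) hb0 hbA hbB] at h3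
  have h4 : rest p (fun w => valueOne (G w)) b Ψ [c] = 0 := by
    unfold rest low
    simp [sum_range_succ, subWord_nil, valueOne_letter hF]
  rw [h4, zero_add] at h3
  have h5 := one_sub_ne (p := p) (n := 1) le_rfl
  have h6 : Ψ [c] * (1 - ((p : ℚ_[p])⁻¹) ^ 1) = 0 := by
    rw [mul_sub, mul_one]
    exact sub_eq_zero.2 h3
  exact (mul_eq_zero.1 h6).resolve_right h5

theorem assoc_two {Ψ : List Bool → ℚ_[p]} (h : IsAssociator p Ψ) : Ψ [false, true] = 0 := by
  have hl := assoc_letter h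
  obtain ⟨G, b, hF, h1, h2⟩ := h
  obtain ⟨hb0, hbA, hbB⟩ := stmt_BLET p G b hF
  have h3 := congrFun h2 [false, true]
  rw [cmul_subSeries (by simp only [hF.nil, valueOne_one]) hb0 hbA hbB] at h3
  have h4 : rest p (fun w => valueOne (G w)) b Ψ [false, true] = 0 := by
    unfold rest low
    simp [sum_range_succ, subWord_nil, valueOne_letter hF, valueOne_two hF, hl]
  rw [h4, zero_add] at h3
  have h5 := one_sub_ne (p := p) (n := 2) (by norm_num)
  have h6 : Ψ [false, true] * (1 - ((p : ℚ_[p])⁻¹) ^ 2) = 0 := by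
    rw [mul_sub, mul_one]
    exact sub_eq_zero.2 h3
  exact (mul_eq_zero.1 h6).resolve_right h5

/-- The index `(2)`. -/
def two : MZVIndex := ⟨0, fun _ => 2, fun _ => by norm_num, le_rfl⟩

theorem indexWord_two : indexWord two = [false, true] := by
  simp [indexWord, two]

/-- `ζ_p(2) = 0` -/
theorem zetaPadic_two (p : ℕ) [Fact p.Prime] : zetaPadic p two = 0 := by
  unfold zetaPadic
  rw [indexWord_two, assoc_two (Classical.epsilon_spec (stmt_UNA p).exists), mul_zero]

end Pool.Agent.Work.MP_03df5c_pi
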