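import Pool.Agent.Work.MP_03df5c_pi.Even4
import Pool.Agent.Work.MP_03df5c_h91.Defs

/-!
# The real value `ζ(2) = π² / 6`
-/

namespace Pool.Agent.Work.MP_03df5c_pi

open Pool.Agent.Work.MP_03df5c_h91

/-- the indices of the sum for depth one -/
def eOne : ℕ ≃ {n : Fin 1 → ℕ // StrictAnti n ∧ ∀ i, 1 ≤ n i} where
  toFun n := ⟨fun _ => n + 1, fun i j h => absurd h (by
    rw [Subsingleton.elim i j]
    exact lt_irrefl _), fun _ => Nat.le_add_left _ _⟩
  invFun n := n.1 0 - 1
  left_inv n := by simp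
  right_inv n := by
    apply Subtype.ext
    funext i
    have h := n.2.2 0
    have hi : i = 0 := Subsingleton.elim _ _
    rw [hi]
    simp only
    omega

theorem zetaR_two : zetaR 2 = Real.pi ^ 2 / 6 := by
  unfold zetaR
  have h := hasSum_zeta_two
  have h1 := (hasSum_nat_add_iff' 1).2 h
  simp only [Finset.sum_range_one, Nat.cast_zero] at h1
  norm_num at h1
  rw [← h1.tsum_eq]
  congr 1
  funext n
  push_cast
  norm_num

theorem mzv_two : mzv two = Real.pi ^ 2 / 6 := by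
  rw [← zetaR_two]
  unfold mzv zetaR
  change (∑' n : {n : Fin 1 → ℕ // StrictAnti n ∧ ∀ i, 1 ≤ n i},
    ∏ i : Fin 1, 1 / (n.1 i : ℝ) ^ 2) = _
  rw [← eOne.tsum_eq]
  congr 1
  funext n
  simp [eOne]

end Pool.Agent.Work.MP_03df5c_pi
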