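import Pool.Agent.Work.MP_03df5c_all.Assoc
import Pool.Agent.Work.MP_03df5c_h91.KL

/-!
# The `p`-adic zeta value at `2` of the Frobenius description is zero

In the coordinate `v = z / (1 - z)` the coefficients `L = G(A)` and `M = G(AB) - L² / 2` are
`∑ c(n) v^n / n` and `∑ c(n) v^n / n²`, where `c(n) = (-1)^n - [p ∣ n] (-1)^(n/p)`. Modulo `p^N` they are
equal to rational functions of `z` which vanish at `z = 1`.
-/

open Finset PowerSeries

namespace Pool.Agent.Work.MP_03df5c_pi

open Pool.Agent.Work.MP_03df5c_all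

variable {p : ℕ} [hp : Fact p.Prime]

/-- `w = 1 / (1 - X)` -/
noncomputable def wS (p : ℕ) [Fact p.Prime] : PowerSeries ℚ_[p] := PowerSeries.mk fun _ => 1

lemma one_sub_mul_wS : (1 - X) * wS p = 1 := by
  rw [mul_comm]
  exact PowerSeries.mk_one_mul_one_sub_eq_one ℚ_[p]

/-- `v = X / (1 - X)` -/
noncomputable def vS (p : ℕ) [Fact p.Prime] : PowerSeries ℚ_[p] := X * wS p

lemma hasSubst_vS : HasSubst (vS p) := by
  apply HasSubst.of_constantCoeff_zero'
  simp [vS]

lemma one_add_vS : 1 + vS p = wS p := by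
  have h := one_sub_mul_wS (p := p)
  unfold vS
  linear_combination -h

lemma vS_mul : vS p * (1 - X) = X := by
  have h := one_sub_mul_wS (p := p)
  unfold vS
  linear_combination X * h

lemma d_wS : d⁄dX ℚ_[p] (wS p) = wS p * wS p := by
  have h := congrArg (d⁄dX ℚ_[p]) (one_sub_mul_wS (p := p))
  have h1 : d⁄dX ℚ_[p] (1 : PowerSeries ℚ_[p]) = 0 := Derivation.map_one_eq_zero _
  rw [Derivation.leibniz, smul_eq_mul, smul_eq_mul, map_sub, h1, derivative_X, zero_sub] at h
  have h2 := one_sub_mul_wS (p := p)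
  linear_combination wS p * h - (d⁄dX ℚ_[p] (wS p)) * h2

lemma d_vS : d⁄dX ℚ_[p] (vS p) = wS p * wS p := by
  have h : vS p = wS p - 1 := by
    rw [← one_add_vS]
    ring
  have h1 : d⁄dX ℚ_[p] (1 : PowerSeries ℚ_[p]) = 0 := Derivation.map_one_eq_zero _
  rw [h, map_sub, h1, sub_zero, d_wS]

/-! ### A bound for coefficients after substitution -/

lemma bd_one_mul {f g : PowerSeries ℚ_[p]} {C : ℝ} (hf : Bd f 1 1) (hg : Bd g 1 C) :
    Bd (f * g) 1 C := by
  have := Bd.mul zero_le_one hf hg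
  rwa [one_mul] at this

lemma bd_wS : Bd (wS p) 1 1 := by
  intro n
  simp [wS]

lemma bd_vS_pow (n : ℕ) : Bd (vS p ^ n) 1 1 := by
  induction n with
  | zero => rw [pow_zero]; exact bd_one
  | succ n ih =>
    rw [pow_succ]
    refine bd_one_mul ih ?_
    exact bd_one_mul (bd_X zero_le_one) bd_wS

lemma bd_subst {f : PowerSeries ℚ_[p]} {C : ℝ} (hC : 0 ≤ C) (hf : Bd f 1 C) :
    Bd (f.subst (vS p)) 1 C := by
  intro n
  rw [one_pow, mul_one, coeff_subst' hasSubst_vS]
  have hfin := coeff_subst_finite' (hasSubst_vS (p := p)) f n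
  rw [finsum_eq_sum _ hfin]
  refine norm_sum_le_of _ _ hC fun d _ => ?_
  rw [smul_eq_mul, norm_mul]
  have h1 := hf d
  have h2 := bd_vS_pow (p := p) d n
  rw [one_pow, mul_one] at h1 h2
  calc ‖coeff d f‖ * ‖coeff n (vS p ^ d)‖ ≤ C * 1 :=
        mul_le_mul h1 h2 (norm_nonneg _) hC
    _ = C := mul_one _

lemma norm_valueOne_le {f : PowerSeries ℚ_[p]} {C : ℝ} (hC : 0 ≤ C) (hf : Bd f 1 C)
    (hoc : Overconvergent f) : ‖valueOne f‖ ≤ C := by
  unfold valueOne
  have h1 := (summable_of_oc hoc).hasSum.tendsto_sum_nat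
  refine le_of_tendsto h1.norm (Filter.Eventually.of_forall fun n => ?_)
  refine norm_sum_le_of _ _ hC fun d _ => ?_
  have h2 := hf d
  rwa [one_pow, mul_one] at h2

/-! ### The value at one of a series with periodic coefficients in `v` -/

lemma oc_one_sub_X : Overconvergent (1 - X : PowerSeries ℚ_[p]) := oc_sub oc_one oc_X

lemma oc_pow {f : PowerSeries ℚ_[p]} (hf : Overconvergent f) (n : ℕ) : Overconvergent (f ^ n) := by
  induction n with
  | zero => rw [pow_zero]; exact oc_one
  | succ n ih => rw [pow_succ]; exact oc_mul ih hf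

lemma valueOne_pow {f : PowerSeries ℚ_[p]} (hf : Overconvergent f) (n : ℕ) :
    valueOne (f ^ n) = valueOne f ^ n := by
  induction n with
  | zero => rw [pow_zero, pow_zero, valueOne_one]
  | succ n ih => rw [pow_succ, pow_succ, valueOne_mul (oc_pow hf n) hf, ih]

lemma valueOne_one_sub_X : valueOne (1 - X : PowerSeries ℚ_[p]) = 0 := by
  rw [valueOne_sub oc_one oc_X, valueOne_one, valueOne_X, sub_self]

theorem value_zero (a : ℕ → ℚ_[p]) (ε : ℚ_[p]) (hε : ‖ε‖ = 1) (K : ℝ) (hK : 0 ≤ K)
    (h : ∀ N : ℕ, 2 ≤ N → ∀ n, ‖a (n + p ^ N) - ε * a n‖ ≤ K * ((p : ℝ)⁻¹) ^ N)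
    (hoc : Overconvergent ((PowerSeries.mk a).subst (vS p))) :
    valueOne ((PowerSeries.mk a).subst (vS p)) = 0 := by
  obtain ⟨ℓ, hℓ⟩ : ∃ ℓ, ℓ = (PowerSeries.mk a).subst (vS p) := ⟨_, rfl⟩
  rw [← hℓ] at hoc ⊢
  have key : ∀ N : ℕ, 2 ≤ N → ‖valueOne ℓ‖ ≤ K * ((p : ℝ)⁻¹) ^ N := by
    intro N hN
    obtain ⟨q, hq⟩ : ∃ q, q = p ^ N := ⟨_, rfl⟩
    have hq0 : q ≠ 0 := by
      rw [hq]
      exact pow_ne_zero _ hp.out.ne_zero
    -- the error term before substitution
    obtain ⟨τ, hτ⟩ : ∃ τ : PowerSeries ℚ_[p], τ = PowerSeries.mk a -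
        ε • (PowerSeries.mk a * X ^ q) - ∑ n ∈ range q, a n • (X : PowerSeries ℚ_[p]) ^ n :=
      ⟨_, rfl⟩
    have hτb : Bd τ 1 (K * ((p : ℝ)⁻¹) ^ N) := by
      intro n
      rw [one_pow, mul_one]
      have h1 : coeff n τ = if n < q then 0 else a n - ε * a (n - q) := by
        rw [hτ, map_sub, map_sub, coeff_mk, map_sum, coeff_smul, coeff_mul_X_pow']
        have e2 : ∑ i ∈ range q, coeff n (a i • (X : PowerSeries ℚ_[p]) ^ i) =
            if n < q then a n else 0 := by
          simp only [coeff_smul, coeff_X_pow]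
          split_ifs with h2
          · rw [Finset.sum_eq_single n]
            · simp
            · intro i _ hi
              rw [if_neg hi.symm, smul_zero]
            · intro h3
              exact absurd (mem_range.2 h2) h3
          · refine Finset.sum_eq_zero fun i hi => ?_
            rw [mem_range] at hi
            rw [if_neg (by omega), smul_zero]
        rw [e2, coeff_mk]
        split_ifs with h2 h3 h3
        · omega
        · ring
        · ring
        · omega
      rw [h1]
      split_ifs with h2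
      · rw [norm_zero]
        positivity
      · have h3 := h N hN (n - q)
        rw [← hq, Nat.sub_add_cancel (by omega)] at h3
        exact h3
    have hsub : τ.subst (vS p) = ℓ - ε • (ℓ * vS p ^ q) - ∑ n ∈ range q, a n • vS p ^ n := by
      rw [hτ, ← coe_substAlgHom hasSubst_vS, map_sub, map_sub, map_smul, map_mul, map_pow,
        map_sum, coe_substAlgHom, subst_X hasSubst_vS, ← hℓ]
      congr 1
      refine Finset.sum_congr rfl fun n _ => ?_
      rw [← coe_substAlgHom hasSubst_vS, map_smul, map_pow, coe_substAlgHom,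
        subst_X hasSubst_vS]
    have hv : vS p ^ q * (1 - X) ^ q = X ^ q := by
      rw [← mul_pow, vS_mul]
    have hmul : (1 - X) ^ q * τ.subst (vS p) = ℓ * ((1 - X) ^ q - ε • X ^ q) -
        ∑ n ∈ range q, a n • (X ^ n * (1 - X) ^ (q - n)) := by
      have e1 : (1 - X : PowerSeries ℚ_[p]) ^ q * ∑ n ∈ range q, a n • vS p ^ n =
          ∑ n ∈ range q, a n • (X ^ n * (1 - X) ^ (q - n)) := by
        rw [Finset.mul_sum]
        refine Finset.sum_congr rfl fun n hn => ?_
        rw [mem_range] at hn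
        have e2 : (1 - X : PowerSeries ℚ_[p]) ^ q = (1 - X) ^ n * (1 - X) ^ (q - n) := by
          rw [← pow_add]
          congr 1
          omega
        rw [mul_smul_comm, e2]
        congr 1
        have e3 : vS p ^ n * (1 - X) ^ n = X ^ n := by
          rw [← mul_pow, vS_mul]
        rw [← e3]
        ring
      rw [hsub, mul_sub, e1]
      congr 1
      rw [mul_sub, mul_smul_comm, mul_sub, mul_smul_comm, ← hv]
      congr 1
      · ring
      · congr 1
        ring
    have hbd : Bd (ℓ * ((1 - X) ^ q - ε • X ^ q) -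
        ∑ n ∈ range q, a n • (X ^ n * (1 - X) ^ (q - n))) 1 (K * ((p : ℝ)⁻¹) ^ N) := by
      rw [← hmul]
      refine bd_one_mul ?_ (bd_subst (by positivity) hτb)
      have h1 : Bd (1 - X : PowerSeries ℚ_[p]) 1 1 := Bd.sub zero_le_one bd_one (bd_X zero_le_one)
      have h2 : ∀ k : ℕ, Bd ((1 - X : PowerSeries ℚ_[p]) ^ k) 1 1 := by
        intro k
        induction k with
        | zero => rw [pow_zero]; exact bd_one
        | succ k ih => rw [pow_succ]; exact bd_one_mul ih h1
      exact h2 q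
    have hocX : Overconvergent ((1 - X : PowerSeries ℚ_[p]) ^ q) := oc_pow oc_one_sub_X q
    have hocX2 : Overconvergent (ε • X ^ q : PowerSeries ℚ_[p]) := by
      rw [smul_eq_C_mul]
      exact oc_mul (oc_C _) (oc_pow oc_X q)
    have hocS : ∀ n ∈ range q, Overconvergent (a n • (X ^ n * (1 - X) ^ (q - n)) :
        PowerSeries ℚ_[p]) := by
      intro n _
      rw [smul_eq_C_mul]
      exact oc_mul (oc_C _) (oc_mul (oc_pow oc_X n) (oc_pow oc_one_sub_X _))
    have hval : valueOne (ℓ * ((1 - X) ^ q - ε • X ^ q) -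
        ∑ n ∈ range q, a n • (X ^ n * (1 - X) ^ (q - n))) = valueOne ℓ * -ε := by
      rw [valueOne_sub (oc_mul hoc (oc_sub hocX hocX2)) (oc_sum _ _ hocS),
        valueOne_mul hoc (oc_sub hocX hocX2), valueOne_sub hocX hocX2, valueOne_sum _ _ hocS,
        Finset.sum_eq_zero, sub_zero]
      · congr 1
        rw [valueOne_pow oc_one_sub_X, valueOne_one_sub_X, zero_pow hq0, smul_eq_C_mul,
          valueOne_mul (oc_C _) (oc_pow oc_X q), valueOne_C, valueOne_pow oc_X, valueOne_X,
          one_pow, mul_one, zero_sub]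
      · intro n hn
        rw [mem_range] at hn
        rw [smul_eq_C_mul, valueOne_mul (oc_C _) (oc_mul (oc_pow oc_X n) (oc_pow oc_one_sub_X _)),
          valueOne_mul (oc_pow oc_X n) (oc_pow oc_one_sub_X _),
          valueOne_pow oc_one_sub_X, valueOne_one_sub_X, zero_pow (by omega), mul_zero, mul_zero]
    have hfin := norm_valueOne_le (by positivity) hbd
      (oc_sub (oc_mul hoc (oc_sub hocX hocX2)) (oc_sum _ _ hocS))
    rw [hval, norm_mul, norm_neg, hε, mul_one] at hfin
    exact hfin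
  have hlim : Filter.Tendsto (fun N : ℕ => K * ((p : ℝ)⁻¹) ^ N) Filter.atTop (nhds 0) := by
    have h1 : Filter.Tendsto (fun N : ℕ => ((p : ℝ)⁻¹) ^ N) Filter.atTop (nhds 0) := by
      apply tendsto_pow_atTop_nhds_zero_of_lt_one (by positivity)
      exact inv_lt_one_of_one_lt₀ one_lt_p
    simpa using h1.const_mul K
  have h2 : ‖valueOne ℓ‖ ≤ 0 := by
    refine ge_of_tendsto hlim ?_
    filter_upwards [Filter.eventually_ge_atTop 2] with N hN using key N hN
  exact norm_le_zero_iff.1 h2

end Pool.Agent.Work.MP_03df5c_pi
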