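import Pool.Agent.Work.MP_03df5c_pi.Even

/-!
# The `p`-adic zeta value at `2` of the Frobenius description is zero (continued)
-/

open Finset PowerSeries

namespace Pool.Agent.Work.MP_03df5c_pi

open Pool.Agent.Work.MP_03df5c_all

variable (p : ℕ) [hp : Fact p.Prime]

/-- `c(n) = (-1)^n - [p ∣ n] (-1)^(n/p)` -/
noncomputable def cc (n : ℕ) : ℚ_[p] := (-1) ^ n - if p ∣ n then (-1) ^ (n / p) else 0

/-- `c(n) / n^k` -/
noncomputable def aa (k n : ℕ) : ℚ_[p] := cc p n * ((n : ℚ_[p]) ^ k)⁻¹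

variable {p}

lemma neg_one_pow_pow {N : ℕ} (hN : 1 ≤ N) : (-1 : ℚ_[p]) ^ (p ^ N) = (-1) ^ p := by
  rcases hp.out.eq_two_or_odd' with h | h
  · subst h
    rw [Even.neg_one_pow (by norm_num : Even 2), Even.neg_one_pow]
    exact (Nat.even_pow' (by omega)).2 (by norm_num)
  · rw [h.neg_one_pow, (h.pow).neg_one_pow]

lemma cc_add {N : ℕ} (hN : 2 ≤ N) (n : ℕ) : cc p (n + p ^ N) = (-1) ^ p * cc p n := by
  obtain ⟨M, rfl⟩ : ∃ M, N = M + 1 := ⟨N - 1, by omega⟩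
  have h1 : p ∣ n + p ^ (M + 1) ↔ p ∣ n := by
    rw [Nat.dvd_add_left (dvd_pow_self p (by omega))]
  unfold cc
  by_cases h : p ∣ n
  · rw [if_pos h, if_pos (h1.2 h)]
    have h2 : (n + p ^ (M + 1)) / p = n / p + p ^ M := by
      rw [pow_succ, Nat.add_mul_div_right _ _ hp.out.pos]
    rw [h2, pow_add (-1 : ℚ_[p]) n, pow_add (-1 : ℚ_[p]) (n / p), neg_one_pow_pow (by omega),
      neg_one_pow_pow (by omega)]
    ring
  · rw [if_neg h, if_neg (fun h3 => h (h1.1 h3)), pow_add (-1 : ℚ_[p]) n,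
      neg_one_pow_pow (by omega)]
    ring

lemma cc_eq_zero {n : ℕ} (h : p ^ 2 ∣ n) : cc p n = 0 := by
  obtain ⟨j, rfl⟩ := h
  unfold cc
  have h1 : p ∣ p ^ 2 * j := ⟨p * j, by ring⟩
  have h2 : p ^ 2 * j / p = p * j := by
    rw [pow_two, mul_assoc, Nat.mul_div_cancel_left _ hp.out.pos]
  rw [if_pos h1, h2, pow_mul, neg_one_pow_pow (by norm_num), ← pow_mul, sub_self]

lemma norm_neg_one_pow (n : ℕ) : ‖(-1 : ℚ_[p]) ^ n‖ = 1 := by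
  rw [norm_pow, norm_neg, norm_one, one_pow]

lemma norm_cc_le (n : ℕ) : ‖cc p n‖ ≤ 1 := by
  unfold cc
  rw [sub_eq_add_neg]
  refine (IsUltrametricDist.norm_add_le_max _ _).trans (max_le (norm_neg_one_pow n).le ?_)
  rw [norm_neg]
  split_ifs
  · exact (norm_neg_one_pow _).le
  · rw [norm_zero]
    exact zero_le_one

lemma norm_natCast_ge {n : ℕ} (h : ¬ p ^ 2 ∣ n) : ((p : ℝ)⁻¹) ≤ ‖(n : ℚ_[p])‖ := by
  by_contra hlt
  push Not at hlt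
  apply h
  have h1 : ‖((n : ℤ) : ℚ_[p])‖ < (p : ℝ) ^ ((-2 : ℤ) + 1) := by
    have e : (p : ℝ) ^ ((-2 : ℤ) + 1) = (p : ℝ)⁻¹ := by
      rw [show (-2 : ℤ) + 1 = -1 by norm_num, zpow_neg_one]
    rw [e]
    exact_mod_cast hlt
  have h2 := (Padic.norm_le_pow_iff_norm_lt_pow_add_one ((n : ℤ) : ℚ_[p]) (-2)).2 h1
  have h3 := (Padic.norm_int_le_pow_iff_dvd (p := p) (n : ℤ) 2).1 (by exact_mod_cast h2)
  exact_mod_cast h3

lemma norm_pow_sub_pow {x y : ℚ_[p]} (hx : ‖x‖ ≤ 1) (hy : ‖y‖ ≤ 1) (k : ℕ) :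
    ‖x ^ k - y ^ k‖ ≤ ‖x - y‖ := by
  rw [← (Commute.all x y).geom_sum₂_mul, norm_mul]
  have h1 : ‖∑ i ∈ range k, x ^ i * y ^ (k - 1 - i)‖ ≤ 1 := by
    refine norm_sum_le_of _ _ zero_le_one fun i _ => ?_
    rw [norm_mul, norm_pow, norm_pow]
    exact mul_le_one₀ (pow_le_one₀ (norm_nonneg _) hx) (by positivity)
      (pow_le_one₀ (norm_nonneg _) hy)
  calc _ ≤ 1 * ‖x - y‖ := mul_le_mul_of_nonneg_right h1 (norm_nonneg _)
    _ = _ := one_mul _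

lemma norm_natCast_le (n : ℕ) : ‖(n : ℚ_[p])‖ ≤ 1 := by
  exact_mod_cast Padic.norm_int_le_one (p := p) (n : ℤ)

lemma aa_periodic (k N : ℕ) (hN : 2 ≤ N) (n : ℕ) :
    ‖aa p k (n + p ^ N) - (-1) ^ p * aa p k n‖ ≤ (p : ℝ) ^ (2 * k) * ((p : ℝ)⁻¹) ^ N := by
  unfold aa
  rw [cc_add hN]
  by_cases h : p ^ 2 ∣ n
  · rw [cc_eq_zero h]
    simp only [mul_zero, zero_mul, sub_zero, norm_zero]
    positivity
  have hp0 : (0 : ℝ) < p := by exact_mod_cast hp.out.pos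
  have h2 : ¬ p ^ 2 ∣ n + p ^ N := by
    intro h3
    exact h ((Nat.dvd_add_left (pow_dvd_pow p hN)).1 h3)
  have h3 := norm_natCast_ge h
  have h4 := norm_natCast_ge h2
  obtain ⟨x, hx⟩ : ∃ x : ℚ_[p], x = ((n + p ^ N : ℕ) : ℚ_[p]) := ⟨_, rfl⟩
  obtain ⟨y, hy⟩ : ∃ y : ℚ_[p], y = (n : ℚ_[p]) := ⟨_, rfl⟩
  have hx1 : ‖x‖ ≤ 1 := by rw [hx]; exact norm_natCast_le _
  have hy1 : ‖y‖ ≤ 1 := by rw [hy]; exact norm_natCast_le _
  rw [← hx] at h4 ⊢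
  rw [← hy] at h3 ⊢
  have hx0 : x ≠ 0 := fun h => by
    rw [h, norm_zero] at h4
    exact absurd (inv_pos.2 hp0) (not_lt.2 h4)
  have hy0 : y ≠ 0 := fun h => by
    rw [h, norm_zero] at h3
    exact absurd (inv_pos.2 hp0) (not_lt.2 h3)
  have hxy : ‖y - x‖ = ((p : ℝ)⁻¹) ^ N := by
    rw [hx, hy]
    push_cast
    rw [sub_add_cancel_left, norm_neg, norm_pow, Padic.norm_p]
  have e : (-1) ^ p * cc p n * (x ^ k)⁻¹ - (-1) ^ p * (cc p n * (y ^ k)⁻¹) =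
      (-1) ^ p * cc p n * ((y ^ k - x ^ k) * ((x ^ k)⁻¹ * (y ^ k)⁻¹)) := by
    field_simp
  rw [e, norm_mul, norm_mul, norm_mul, norm_neg_one_pow, one_mul, norm_mul, norm_inv, norm_inv,
    norm_pow, norm_pow]
  have h5 : ‖y ^ k - x ^ k‖ ≤ ((p : ℝ)⁻¹) ^ N := (norm_pow_sub_pow hy1 hx1 k).trans hxy.le
  have h6 : (‖x‖ ^ k)⁻¹ ≤ (p : ℝ) ^ k := by
    rw [inv_le_comm₀ (pow_pos (norm_pos_iff.2 hx0) k) (pow_pos hp0 k), ← inv_pow]
    exact pow_le_pow_left₀ (by positivity) h4 k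
  have h7 : (‖y‖ ^ k)⁻¹ ≤ (p : ℝ) ^ k := by
    rw [inv_le_comm₀ (pow_pos (norm_pos_iff.2 hy0) k) (pow_pos hp0 k), ← inv_pow]
    exact pow_le_pow_left₀ (by positivity) h3 k
  calc ‖cc p n‖ * (‖y ^ k - x ^ k‖ * ((‖x‖ ^ k)⁻¹ * (‖y‖ ^ k)⁻¹))
      ≤ 1 * (((p : ℝ)⁻¹) ^ N * ((p : ℝ) ^ k * (p : ℝ) ^ k)) := by
        refine mul_le_mul (norm_cc_le n) ?_ (by positivity) zero_le_one
        refine mul_le_mul h5 ?_ (by positivity) (by positivity)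
        exact mul_le_mul h6 h7 (by positivity) (by positivity)
    _ = (p : ℝ) ^ (2 * k) * ((p : ℝ)⁻¹) ^ N := by ring

/-- the series `∑ c(n) v^n / n^k` -/
noncomputable def ell (p : ℕ) [Fact p.Prime] (k : ℕ) : PowerSeries ℚ_[p] :=
  (PowerSeries.mk (aa p k)).subst (vS p)

theorem valueOne_ell (k : ℕ) (h : Overconvergent (ell p k)) : valueOne (ell p k) = 0 :=
  value_zero (aa p k) ((-1) ^ p) (norm_neg_one_pow p) ((p : ℝ) ^ (2 * k)) (by positivity)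
    (fun N hN n => aa_periodic k N hN n) h

end Pool.Agent.Work.MP_03df5c_pi
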