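import Pool.Agent.Work.MP_03df5c_pi.Even2

/-!
# The `p`-adic zeta value at `2` of the Frobenius description is zero (continued)
-/

open Finset PowerSeries

namespace Pool.Agent.Work.MP_03df5c_pi

open Pool.Agent.Work.MP_03df5c_all

variable {p : ℕ} [hp : Fact p.Prime]

/-- the part `(-1)^(n+1)` -/
lemma geomA : (PowerSeries.mk fun n => (-1 : ℚ_[p]) ^ (n + 1)) * (1 + X) = -1 := by
  ext n
  rw [mul_add, mul_one, map_add, coeff_mk]
  cases n with
  | zero => simp
  | succ n =>
    rw [coeff_succ_mul_X, coeff_mk]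
    simp [coeff_one]
    ring

/-- the part with `p ∣ n + 1` -/
lemma geomB : (PowerSeries.mk fun n => if p ∣ n + 1 then (-1 : ℚ_[p]) ^ ((n + 1) / p) else 0) *
    (1 + X ^ p) = -X ^ (p - 1) := by
  have hp1 := hp.out.one_lt
  ext n
  rw [mul_add, mul_one, map_add, coeff_mk, coeff_mul_X_pow', map_neg, coeff_X_pow]
  by_cases h : p ≤ n
  · rw [if_pos h, coeff_mk, if_neg (show ¬ n = p - 1 by omega), neg_zero]
    have h1 : n - p + 1 = n + 1 - p := by omega
    have h2 : p ∣ n - p + 1 ↔ p ∣ n + 1 := by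
      rw [h1]
      exact Nat.dvd_sub_self_right.trans (by
        constructor
        · rintro (h3 | h3)
          · exact h3
          · omega
        · exact fun h3 => Or.inl h3)
    by_cases h3 : p ∣ n + 1
    · rw [if_pos h3, if_pos (h2.2 h3)]
      have h4 : (n + 1) / p = (n - p + 1) / p + 1 := by
        have h5 : n + 1 = (n - p + 1) + p := by omega
        conv_lhs => rw [h5]
        rw [Nat.add_div_right _ hp.out.pos]
      rw [h4, pow_succ]
      ring
    · rw [if_neg h3, if_neg (fun h4 => h3 (h2.1 h4)), add_zero]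
  · rw [if_neg h, add_zero]
    by_cases h3 : p ∣ n + 1
    · have h4 : n + 1 = p := by
        obtain ⟨j, hj⟩ := h3
        have : j = 1 := by
          rcases j with _ | _ | j
          · omega
          · rfl
          · exfalso
            have h5 : p * (j + 1 + 1) = p * j + 2 * p := by ring
            rw [h5] at hj
            have : n + 1 ≤ p := by omega
            have h6 : 0 ≤ p * j := Nat.zero_le _
            omega
        rw [hj, this, mul_one]
      rw [if_pos (h4 ▸ dvd_rfl), if_pos (by omega), h4, Nat.div_self hp.out.pos, pow_one]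
    · rw [if_neg h3, if_neg, neg_zero]
      intro h4
      apply h3
      rw [h4, Nat.sub_add_cancel hp1.le]

lemma cc_series : (PowerSeries.mk fun n => cc p (n + 1)) * ((1 + X) * (1 + X ^ p)) =
    X ^ (p - 1) - 1 := by
  have h1 : (PowerSeries.mk fun n => cc p (n + 1)) =
      (PowerSeries.mk fun n => (-1 : ℚ_[p]) ^ (n + 1)) -
        (PowerSeries.mk fun n => if p ∣ n + 1 then (-1 : ℚ_[p]) ^ ((n + 1) / p) else 0) := by
    ext n
    rw [map_sub, coeff_mk, coeff_mk, coeff_mk]
    rfl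
  have h2 : (X : PowerSeries ℚ_[p]) ^ p = X ^ (p - 1) * X := by
    rw [← pow_succ, Nat.sub_add_cancel hp.out.one_lt.le]
  rw [h1, sub_mul]
  have e1 := geomA (p := p)
  have e2 := geomB (p := p)
  linear_combination (1 + X ^ p) * e1 - (1 + X) * e2 - h2

lemma d_mk_aa_one : d⁄dX ℚ_[p] (PowerSeries.mk (aa p 1)) = PowerSeries.mk fun n => cc p (n + 1) := by
  ext n
  rw [coeff_derivative, coeff_mk, coeff_mk]
  unfold aa
  have h : ((n + 1 : ℕ) : ℚ_[p]) ≠ 0 := by exact_mod_cast Nat.succ_ne_zero n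
  push_cast at h ⊢
  field_simp

lemma d_mk_aa_two : X * d⁄dX ℚ_[p] (PowerSeries.mk (aa p 2)) = PowerSeries.mk (aa p 1) := by
  ext n
  cases n with
  | zero =>
    rw [coeff_zero_X_mul, coeff_mk]
    simp [aa]
  | succ n =>
    rw [coeff_succ_X_mul, coeff_derivative, coeff_mk, coeff_mk]
    unfold aa
    have h : ((n + 1 : ℕ) : ℚ_[p]) ≠ 0 := by exact_mod_cast Nat.succ_ne_zero n
    push_cast at h ⊢
    field_simp

lemma constantCoeff_ell {k : ℕ} (hk : k ≠ 0) : constantCoeff (ell p k) = 0 := by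
  have h1 : constantCoeff (vS p) = 0 := by simp [vS]
  have h2 : constantCoeff (PowerSeries.mk (aa p k)) = 0 := by
    rw [← coeff_zero_eq_constantCoeff_apply, coeff_mk]
    simp [aa, hk]
  exact constantCoeff_subst_eq_zero h1 _ h2

lemma one_add_vS_pow : (1 - X) ^ p * (1 + vS p ^ p) = frobD p := by
  unfold frobD
  have h : vS p ^ p * (1 - X) ^ p = X ^ p := by rw [← mul_pow, vS_mul]
  linear_combination h

lemma pd_frobD : d⁄dX ℚ_[p] (frobD p) =
    (p : PowerSeries ℚ_[p]) * (X ^ (p - 1) - (1 - X) ^ (p - 1)) := by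
  unfold frobD
  have h1 : d⁄dX ℚ_[p] (1 - X : PowerSeries ℚ_[p]) = -1 := by
    have h2 : d⁄dX ℚ_[p] (1 : PowerSeries ℚ_[p]) = 0 := Derivation.map_one_eq_zero _
    rw [map_sub, h2, derivative_X, zero_sub]
  rw [map_add, Derivation.leibniz_pow, Derivation.leibniz_pow, derivative_X, h1]
  simp only [smul_eq_mul, nsmul_eq_mul]
  ring

/-- `p D (ell 1)' = D'` -/
theorem d_ell_one : (p : PowerSeries ℚ_[p]) * frobD p * d⁄dX ℚ_[p] (ell p 1) =
    d⁄dX ℚ_[p] (frobD p) := by
  obtain ⟨E, hE⟩ : ∃ E : PowerSeries ℚ_[p], E = (PowerSeries.mk fun n => cc p (n + 1)).subst (vS p) :=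
    ⟨_, rfl⟩
  have h1 : d⁄dX ℚ_[p] (ell p 1) = E * (wS p * wS p) := by
    unfold ell
    rw [derivative_subst hasSubst_vS, d_mk_aa_one, d_vS, ← hE]
  have h2 : E * (wS p * (1 + vS p ^ p)) = vS p ^ (p - 1) - 1 := by
    have h3 := congrArg (substAlgHom (hasSubst_vS (p := p))) (cc_series (p := p))
    simp only [map_mul, map_add, map_sub, map_one, map_pow, coe_substAlgHom,
      subst_X hasSubst_vS] at h3
    rw [← hE, one_add_vS] at h3
    exact h3
  have h4 : vS p ^ (p - 1) * (1 - X) ^ (p - 1) = X ^ (p - 1) := by rw [← mul_pow, vS_mul]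
  have h5 : (1 - X : PowerSeries ℚ_[p]) ^ p = (1 - X) ^ (p - 1) * (1 - X) := by
    rw [← pow_succ, Nat.sub_add_cancel hp.out.one_lt.le]
  have h6 := one_sub_mul_wS (p := p)
  rw [h1, pd_frobD, ← one_add_vS_pow, h5]
  have h7 : (1 - X : PowerSeries ℚ_[p]) ^ (p - 1) * (1 - X) * (1 + vS p ^ p) * (E * (wS p * wS p)) =
      X ^ (p - 1) - (1 - X) ^ (p - 1) := by
    calc (1 - X : PowerSeries ℚ_[p]) ^ (p - 1) * (1 - X) * (1 + vS p ^ p) * (E * (wS p * wS p))
        = (1 - X) ^ (p - 1) * ((1 - X) * wS p) * (E * (wS p * (1 + vS p ^ p))) := by ring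
      _ = (1 - X) ^ (p - 1) * (vS p ^ (p - 1) - 1) := by rw [h6, h2, mul_one]
      _ = X ^ (p - 1) - (1 - X) ^ (p - 1) := by linear_combination h4
  linear_combination (p : PowerSeries ℚ_[p]) * h7

/-- `X (1 - X) (ell 2)' = ell 1` -/
theorem d_ell_two : X * (1 - X) * d⁄dX ℚ_[p] (ell p 2) = ell p 1 := by
  have h1 : d⁄dX ℚ_[p] (ell p 2) =
      (d⁄dX ℚ_[p] (PowerSeries.mk (aa p 2))).subst (vS p) * (wS p * wS p) := by
    unfold ell
    rw [derivative_subst hasSubst_vS, d_vS]
  have h2 : vS p * (d⁄dX ℚ_[p] (PowerSeries.mk (aa p 2))).subst (vS p) = ell p 1 := by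
    have h3 := congrArg (substAlgHom (hasSubst_vS (p := p))) (d_mk_aa_two (p := p))
    rw [map_mul] at h3
    simp only [coe_substAlgHom, subst_X hasSubst_vS] at h3
    exact h3
  have h6 := one_sub_mul_wS (p := p)
  rw [h1, ← h2]
  have h7 : vS p = X * wS p := rfl
  rw [h7]
  linear_combination X * wS p * (d⁄dX ℚ_[p] (PowerSeries.mk (aa p 2))).subst (X * wS p) * h6

/-- Uniqueness. -/
lemma eq_of_derivative {f g : PowerSeries ℚ_[p]} (h : d⁄dX ℚ_[p] f = d⁄dX ℚ_[p] g)
    (h0 : constantCoeff f = constantCoeff g) : f = g :=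
  PowerSeries.derivative.ext h h0

variable {G : List Bool → PowerSeries ℚ_[p]} {b : List Bool → ℚ_[p]}

lemma p_mul_frobD_ne : (p : PowerSeries ℚ_[p]) * frobD p ≠ 0 := by
  have h := lhs_ne_zero (p := p)
  intro h1
  apply h
  have e : (p : PowerSeries ℚ_[p]) * X * (1 - X) * frobD p =
      (p : PowerSeries ℚ_[p]) * frobD p * (X * (1 - X)) := by ring
  rw [e, h1, zero_mul]

theorem G_letter (hF : IsFrobenius p G b) (c : Bool) : G [c] = ell p 1 := by
  obtain ⟨hb0, hbA, hbB⟩ := stmt_BLET p G b hF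
  have h1 := hF.ode [c]
  have h2 : (p : PowerSeries ℚ_[p]) * frobD p * d⁄dX ℚ_[p] (G [c]) = d⁄dX ℚ_[p] (frobD p) := by
    apply mul_left_cancel₀ X_mul_ne_zero
    cases c
    · simp [cmul, letter, sum_range_succ, hF.nil, hb0, hbA] at h1
      linear_combination h1
    · simp [cmul, letter, sum_range_succ, hF.nil, hb0, hbB] at h1
      linear_combination h1
  apply eq_of_derivative
  · apply mul_left_cancel₀ (p_mul_frobD_ne (p := p))
    rw [h2, d_ell_one]
  · rw [hF.zero [c] (by simp), constantCoeff_ell one_ne_zero]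

end Pool.Agent.Work.MP_03df5c_pi
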