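import Mathlib

/-!
# Extension of a homomorphism of a ring of periods to algebraic numbers and `π`
-/

open MvPolynomial

namespace Pool.Agent.Work.MP_03df5c_pi

/-- A homomorphism to an algebraically closed field extends to an integral extension. -/
theorem exists_extension {A B K : Type*} [CommRing A] [CommRing B] [Algebra A B]
    [Algebra.IsIntegral A B] (hinj : Function.Injective (algebraMap A B)) [Field K]
    [IsAlgClosed K] (φ : A →+* K) :
    ∃ Φ : B →+* K, ∀ a, Φ (algebraMap A B a) = φ a := by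
  obtain ⟨P, hPdef⟩ : ∃ P : Ideal A, P = RingHom.ker φ := ⟨_, rfl⟩
  have hP : P.IsPrime := hPdef ▸ RingHom.ker_isPrime φ
  obtain ⟨Q, -, hQ, hQP⟩ := Ideal.exists_ideal_over_prime_of_isIntegral P (⊥ : Ideal B) (by
    intro a ha
    have h1 : algebraMap A B a = 0 := by simpa using ha
    have h2 : a = 0 := hinj (by rw [h1, map_zero])
    rw [h2]
    exact P.zero_mem)
  have hker : ∀ a ∈ P, φ a = 0 := fun a ha => by
    rw [hPdef] at ha
    exact ha
  have hinjφ : Function.Injective (Ideal.Quotient.lift P φ hker) := by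
    rw [injective_iff_map_eq_zero]
    intro a
    obtain ⟨a, rfl⟩ := Ideal.Quotient.mk_surjective a
    rw [Ideal.Quotient.lift_mk]
    intro h
    rw [Ideal.Quotient.eq_zero_iff_mem, hPdef]
    exact h
  let i1 : Algebra (A ⧸ P) K := (Ideal.Quotient.lift P φ hker).toAlgebra
  let i2 : Algebra (A ⧸ P) (B ⧸ Q) := Ideal.Quotient.algebraQuotientOfLEComap (le_of_eq hQP.symm)
  have hmap : ∀ a : A, algebraMap (A ⧸ P) (B ⧸ Q) (Ideal.Quotient.mk P a) =
      Ideal.Quotient.mk Q (algebraMap A B a) := fun a => rfl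
  have h2 : Function.Injective (algebraMap (A ⧸ P) (B ⧸ Q)) := by
    rw [injective_iff_map_eq_zero]
    intro a
    obtain ⟨a, rfl⟩ := Ideal.Quotient.mk_surjective a
    rw [hmap, Ideal.Quotient.eq_zero_iff_mem, Ideal.Quotient.eq_zero_iff_mem, ← hQP]
    exact fun h => h
  have hint : Algebra.IsIntegral (A ⧸ P) (B ⧸ Q) := by
    constructor
    intro b
    obtain ⟨b, rfl⟩ := Ideal.Quotient.mk_surjective b
    obtain ⟨q, hq1, hq2⟩ := Algebra.IsIntegral.isIntegral (R := A) b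
    refine ⟨q.map (Ideal.Quotient.mk P), hq1.map _, ?_⟩
    rw [Polynomial.eval₂_map]
    have h3 : (algebraMap (A ⧸ P) (B ⧸ Q)).comp (Ideal.Quotient.mk P) =
        (Ideal.Quotient.mk Q).comp (algebraMap A B) := RingHom.ext hmap
    rw [h3, ← Polynomial.hom_eval₂, hq2, map_zero]
  have i3 : Module.IsTorsionFree (A ⧸ P) (B ⧸ Q) := by
    have : FaithfulSMul (A ⧸ P) (B ⧸ Q) := (faithfulSMul_iff_algebraMap_injective _ _).2 h2
    infer_instance
  have i4 : Module.IsTorsionFree (A ⧸ P) K := by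
    have : FaithfulSMul (A ⧸ P) K := (faithfulSMul_iff_algebraMap_injective _ _).2 hinjφ
    infer_instance
  let f : B ⧸ Q →ₐ[A ⧸ P] K := IsAlgClosed.lift
  refine ⟨f.toRingHom.comp (Ideal.Quotient.mk Q), fun a => ?_⟩
  change f (Ideal.Quotient.mk Q (algebraMap A B a)) = φ a
  rw [← hmap, f.commutes]
  rfl

/-- The homomorphism `A → ℂ_p` given by the transfer of relations. -/
theorem exists_hom {ι : Type*} {p : ℕ} [Fact p.Prime] (y : ι → ℝ) (w : ι → ℚ_[p])
    (hT : ∀ f : MvPolynomial ι ℚ, aeval y f = 0 → aeval w f = 0) :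
    ∃ φ : (aeval (R := ℚ) (fun i => (y i : ℂ))).range →+* ℂ_[p], ∀ i,
      φ ⟨(y i : ℂ), ⟨X i, by simp⟩⟩ = algebraMap ℚ_[p] ℂ_[p] (w i) := by
  let e : MvPolynomial ι ℚ →ₐ[ℚ] ℂ := aeval (R := ℚ) (fun i => (y i : ℂ))
  let u : MvPolynomial ι ℚ →+* ℂ_[p] :=
    (algebraMap ℚ_[p] ℂ_[p]).comp ((aeval w : MvPolynomial ι ℚ →ₐ[ℚ] ℚ_[p]) : _ →+* ℚ_[p])
  have he : ∀ f, e f = ((aeval y f : ℝ) : ℂ) := by
    intro f
    exact MvPolynomial.aeval_algebraMap_apply ℂ y f
  have hker : RingHom.ker (e.rangeRestrict : MvPolynomial ι ℚ →+* e.range) ≤ RingHom.ker u := by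
    intro f hf
    have h1 : e f = 0 := by
      have : (e.rangeRestrict f : e.range) = 0 := hf
      have h2 := congrArg (Subtype.val) this
      exact h2
    rw [he] at h1
    have h2 : aeval y f = 0 := by exact_mod_cast h1
    change algebraMap ℚ_[p] ℂ_[p] (aeval w f) = 0
    rw [hT f h2, map_zero]
  refine ⟨(e.rangeRestrict : MvPolynomial ι ℚ →+* e.range).liftOfSurjective
    e.rangeRestrict_surjective ⟨u, hker⟩, fun i => ?_⟩
  have h1 := RingHom.liftOfSurjective_comp_apply (e.rangeRestrict : MvPolynomial ι ℚ →+* e.range)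
    e.rangeRestrict_surjective ⟨u, hker⟩ (X i)
  have h2 : (e.rangeRestrict : MvPolynomial ι ℚ →+* e.range) (X i) =
      ⟨(y i : ℂ), ⟨X i, by simp [e]⟩⟩ := by
    apply Subtype.ext
    simp [e]
  rw [h2] at h1
  rw [h1]
  simp [u]

end Pool.Agent.Work.MP_03df5c_pi
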