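import Pool.Agent.Work.MP_03df5c_pi.Fin

/-!
# Families without a common relation
-/

open MvPolynomial

namespace Pool.Agent.Work.MP_03df5c_pi

open Pool.Agent.Work.MP_03df5c_h91 Pool.Agent.Work.MP_03df5c_all

/-- If `π` and the `y j` are algebraically independent so are `π² / 6` and the `y j`. -/
theorem independent_cons_sq {r : ℕ} {y : Fin r → ℝ}
    (h : AlgebraicIndependent ℚ (Fin.cons Real.pi y : Fin (r + 1) → ℝ)) :
    AlgebraicIndependent ℚ (Fin.cons (Real.pi ^ 2 / 6) y : Fin (r + 1) → ℝ) := by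
  obtain ⟨q, hq⟩ : ∃ q : Polynomial ℚ, q = Polynomial.C (1 / 6 : ℚ) * Polynomial.X ^ 2 := ⟨_, rfl⟩
  have h1 : ∀ i, Transcendental ℚ
      ((Fin.cons q (fun _ => Polynomial.X) : Fin (r + 1) → Polynomial ℚ) i) := by
    intro i
    refine Fin.cases ?_ (fun j => ?_) i
    · have e : q.natDegree = 2 := by
        rw [hq]
        exact Polynomial.natDegree_C_mul_X_pow 2 (1 / 6 : ℚ) (by norm_num)
      rw [Fin.cons_zero]
      refine Polynomial.transcendental _ (by rw [e]; norm_num) ?_
      refine mem_nonZeroDivisors_of_ne_zero ?_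
      rw [Polynomial.leadingCoeff_ne_zero]
      intro h0
      rw [h0] at e
      simp at e
    · rw [Fin.cons_succ]
      exact Polynomial.transcendental_X ℚ
  have h2 := h.polynomial_aeval_of_transcendental h1
  have e : (fun i => Polynomial.aeval ((Fin.cons Real.pi y : Fin (r + 1) → ℝ) i)
      ((Fin.cons q (fun _ => Polynomial.X) : Fin (r + 1) → Polynomial ℚ) i)) =
        Fin.cons (Real.pi ^ 2 / 6) y := by
    funext i
    refine Fin.cases ?_ (fun j => ?_) i
    · simp only [Fin.cons_zero]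
      rw [hq]
      simp
      ring
    · simp
  rw [← e]
  exact h2

/-- **Families without a common relation.** -/
theorem family_iff {m r : ℕ} (s : Fin m → MZVIndex) (P : Set ℕ)
    (f : Fin r → MvPolynomial (Fin m) ℚ)
    (hP : ∀ g : MvPolynomial (Fin r) ℚ, g ≠ 0 → ∃ p ∈ P, ∃ _ : Fact p.Prime,
      aeval (fun j => aeval (fun i => zetaPadic p (s i)) (f j)) g ≠ 0) :
    (∀ p ∈ P, ∀ _ : Fact p.Prime, ∀ F : MvPolynomial (Fin (r + 1)) ℚ,
      aeval (Fin.cons (mzv two) (fun j => aeval (fun i => mzv (s i)) (f j)) :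
        Fin (r + 1) → ℝ) F = 0 →
      aeval (Fin.cons (zetaPadic p two) (fun j => aeval (fun i => zetaPadic p (s i)) (f j)) :
        Fin (r + 1) → ℚ_[p]) F = 0) ↔
    AlgebraicIndependent ℚ (Fin.cons Real.pi (fun j => aeval (fun i => mzv (s i)) (f j)) :
      Fin (r + 1) → ℝ) := by
  constructor
  · intro h
    by_contra hdep
    obtain ⟨g, hg, hall⟩ := exists_relation (fun j => aeval (fun i => mzv (s i)) (f j))
      (fun p _ j => aeval (fun i => zetaPadic p (s i)) (f j)) hdep
    obtain ⟨p, hp, hpp, hne⟩ := hP g hg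
    refine hne (hall p ?_)
    intro F hF
    have h1 := h p hp hpp F (by
      rw [mzv_two]
      exact hF)
    rw [zetaPadic_two] at h1
    exact h1
  · intro h p _ _ F hF
    have h2 : Function.Injective (MvPolynomial.aeval (R := ℚ)
      (Fin.cons (Real.pi ^ 2 / 6) (fun j => aeval (fun i => mzv (s i)) (f j)) :
        Fin (r + 1) → ℝ)) := independent_cons_sq h
    have h3 : F = 0 := by
      refine h2 ?_
      rw [map_zero, ← mzv_two]
      exact hF
    rw [h3, map_zero]

end Pool.Agent.Work.MP_03df5c_pi
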