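import Pool.Agent.Work.MP_03df5c_pi.Main3
import Pool.Agent.Work.MP_03df5c_pi.Two
import Pool.Agent.Work.MP_03df5c_all.Fin

/-!
# Assembly for all depths
-/

open MvPolynomial

namespace Pool.Agent.Work.MP_03df5c_pi

open Pool.Agent.Work.MP_03df5c_h91 Pool.Agent.Work.MP_03df5c_all

variable {m : ℕ} (s : Fin m → MZVIndex)

lemma comp_cons_mzv : (fun i => mzv ((Fin.cons two s : Fin (m + 1) → MZVIndex) i)) =
    Fin.cons (Real.pi ^ 2 / 6) (fun i => mzv (s i)) := by
  funext i
  refine Fin.cases ?_ (fun j => ?_) i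
  · simp [mzv_two]
  · simp

lemma comp_cons_zetaPadic (p : ℕ) [Fact p.Prime] :
    (fun i => zetaPadic p ((Fin.cons two s : Fin (m + 1) → MZVIndex) i)) =
      Fin.cons 0 (fun i => zetaPadic p (s i)) := by
  funext i
  refine Fin.cases ?_ (fun j => ?_) i
  · simp [zetaPadic_two]
  · simp

theorem transfers_iff (p : ℕ) [Fact p.Prime] :
    Pool.Agent.Work.MP_03df5c_all.Transfers (Fin.cons two s : Fin (m + 1) → MZVIndex) p ↔
      Tr (fun i => mzv (s i)) (fun i => zetaPadic p (s i)) := by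
  unfold Pool.Agent.Work.MP_03df5c_all.Transfers Tr
  rw [comp_cons_mzv, comp_cons_zetaPadic]

/-- all but finitely many primes are good -/
theorem exists_small (hUNA : Stmt_UNA) (hS : Stmt_SMALL) : ∃ p₀ : ℕ, ∀ (p : ℕ) [Fact p.Prime],
    p₀ ≤ p → ∀ i, ‖zetaPadic p (s i)‖ < 1 := by
  choose q hq using fun i => norm_zetaPadic hUNA hS (s i)
  refine ⟨∑ i, q i, fun p hp hle i => ?_⟩
  have h1 : q i ≤ ∑ i, q i := Finset.single_le_sum (fun _ _ => Nat.zero_le _) (Finset.mem_univ i)
  refine (hq i p (h1.trans hle)).trans_lt ?_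
  exact inv_lt_one_of_one_lt₀ (by exact_mod_cast hp.out.one_lt)

theorem good_infinite (hUNA : Stmt_UNA) (hS : Stmt_SMALL)
    (h : {p : ℕ | ∃ _ : Fact p.Prime, Pool.Agent.Work.MP_03df5c_all.Transfers
      (Fin.cons two s : Fin (m + 1) → MZVIndex) p}.Infinite) :
    (Good (fun i => mzv (s i)) (fun p _ i => zetaPadic p (s i))).Infinite := by
  obtain ⟨p₀, hp₀⟩ := exists_small s hUNA hS
  refine (h.sdiff (Set.finite_Iio p₀)).mono ?_
  rintro p ⟨⟨hp, ht⟩, hlt⟩
  exact ⟨hp, hp₀ p (by simpa using hlt), (transfers_iff s p).1 ht⟩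

theorem independent (hUNA : Stmt_UNA) (hS : Stmt_SMALL) (f : MvPolynomial (Fin m) ℚ)
    (h : {p : ℕ | ∃ _ : Fact p.Prime, Pool.Agent.Work.MP_03df5c_all.Transfers
      (Fin.cons two s : Fin (m + 1) → MZVIndex) p ∧
        aeval (fun i => zetaPadic p (s i)) f ≠ ((constantCoeff f : ℚ) : ℚ_[p])}.Infinite) :
    AlgebraicIndependent ℚ ![Real.pi, aeval (fun i => mzv (s i)) f] := by
  obtain ⟨p₀, hp₀⟩ := exists_small s hUNA hS
  have h1 := independent_of_infinite (fun i => mzv (s i)) (fun p _ i => zetaPadic p (s i)) f (by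
    refine (h.sdiff (Set.finite_Iio p₀)).mono ?_
    rintro p ⟨⟨hp, ht, hne⟩, hlt⟩
    exact ⟨hp, hp₀ p (by simpa using hlt), (transfers_iff s p).1 ht, hne⟩)
  have e : (Fin.cons Real.pi (fun _ => aeval (fun i => mzv (s i)) f) : Fin 2 → ℝ) =
      ![Real.pi, aeval (fun i => mzv (s i)) f] := by
    funext i
    fin_cases i <;> rfl
  rw [← e]
  exact h1

/-- If `π` and `y` are algebraically independent so are `π² / 6` and `y`. -/
theorem independent_sq {y : ℝ} (h : AlgebraicIndependent ℚ ![Real.pi, y]) :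
    AlgebraicIndependent ℚ ![Real.pi ^ 2 / 6, y] := by
  have h1 : ∀ i, Transcendental ℚ
      ((![Polynomial.C (1 / 6 : ℚ) * Polynomial.X ^ 2, Polynomial.X] :
        Fin 2 → Polynomial ℚ) i) := by
    intro i
    fin_cases i
    · have e : (Polynomial.C (1 / 6 : ℚ) * Polynomial.X ^ 2).natDegree = 2 :=
        Polynomial.natDegree_C_mul_X_pow 2 (1 / 6 : ℚ) (by norm_num)
      refine Polynomial.transcendental _ (by
        show (Polynomial.C (1 / 6 : ℚ) * Polynomial.X ^ 2).natDegree ≠ 0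
        rw [e]; norm_num) ?_
      refine mem_nonZeroDivisors_of_ne_zero ?_
      show (Polynomial.C (1 / 6 : ℚ) * Polynomial.X ^ 2).leadingCoeff ≠ 0
      rw [Polynomial.leadingCoeff_ne_zero]
      intro h0
      rw [h0] at e
      simp at e
    · exact Polynomial.transcendental_X ℚ
  have h2 := h.polynomial_aeval_of_transcendental h1
  have e : (fun i => Polynomial.aeval (![Real.pi, y] i)
      ((![Polynomial.C (1 / 6 : ℚ) * Polynomial.X ^ 2, Polynomial.X] :
        Fin 2 → Polynomial ℚ) i)) = ![Real.pi ^ 2 / 6, y] := by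
    funext i
    fin_cases i
    · show Polynomial.aeval Real.pi (Polynomial.C (1 / 6 : ℚ) * Polynomial.X ^ 2) =
        Real.pi ^ 2 / 6
      simp
      ring
    · show Polynomial.aeval y Polynomial.X = y
      simp
  rw [← e]
  exact h2

/-- relations with algebraic coefficients have no constant term -/
theorem relation_constant (hUNA : Stmt_UNA) (hS : Stmt_SMALL)
    (h : {p : ℕ | ∃ _ : Fact p.Prime, Pool.Agent.Work.MP_03df5c_all.Transfers
      (Fin.cons two s : Fin (m + 1) → MZVIndex) p}.Infinite)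
    (F : MvPolynomial (Fin (m + 1)) (algebraicClosure ℚ ℂ))
    (hF : aeval (Fin.cons (Real.pi : ℂ) (fun i => (mzv (s i) : ℂ)) : Fin (m + 1) → ℂ) F = 0) :
    constantCoeff F = 0 :=
  constantCoeff_eq_zero (fun i => mzv (s i)) (fun p _ i => zetaPadic p (s i))
    (good_infinite s hUNA hS h) F hF

/-- elements of `ℚ̄(π)` -/
theorem mem_adjoin (hUNA : Stmt_UNA) (hS : Stmt_SMALL)
    (h : {p : ℕ | ∃ _ : Fact p.Prime, Pool.Agent.Work.MP_03df5c_all.Transfers
      (Fin.cons two s : Fin (m + 1) → MZVIndex) p}.Infinite)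
    (f : MvPolynomial (Fin m) ℚ)
    (hf : ((aeval (fun i => mzv (s i)) f : ℝ) : ℂ) ∈
      IntermediateField.adjoin (algebraicClosure ℚ ℂ) {(Real.pi : ℂ)})
    (p : ℕ) [Fact p.Prime] (hT : Pool.Agent.Work.MP_03df5c_all.Transfers
      (Fin.cons two s : Fin (m + 1) → MZVIndex) p) :
    aeval (fun i => zetaPadic p (s i)) f = ((constantCoeff f : ℚ) : ℚ_[p]) :=
  aeval_eq_of_mem (fun i => mzv (s i)) (fun p _ i => zetaPadic p (s i))
    (good_infinite s hUNA hS h) f hf p ((transfers_iff s p).1 hT)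

/-- one common relation -/
theorem common_relation
    (hdep : ¬ AlgebraicIndependent ℚ (Fin.cons Real.pi (fun i => mzv (s i)) : Fin (m + 1) → ℝ)) :
    ∃ g : MvPolynomial (Fin m) ℚ, g ≠ 0 ∧ ∀ (p : ℕ) [Fact p.Prime],
      Pool.Agent.Work.MP_03df5c_all.Transfers (Fin.cons two s : Fin (m + 1) → MZVIndex) p →
        aeval (fun i => zetaPadic p (s i)) g = 0 := by
  obtain ⟨g, hg, h⟩ := exists_relation (fun i => mzv (s i)) (fun p _ i => zetaPadic p (s i)) hdep
  exact ⟨g, hg, fun p _ hT => h p ((transfers_iff s p).1 hT)⟩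

/-- the pair `(2), s` -/
theorem pair_iff (hUNA : Stmt_UNA) (hS : Stmt_SMALL) (s : MZVIndex) :
    {p : ℕ | ∃ _ : Fact p.Prime, Pool.Agent.Work.MP_03df5c_all.Transfers ![two, s] p ∧
        zetaPadic p s ≠ 0}.Infinite ↔
      AlgebraicIndependent ℚ ![Real.pi, mzv s] ∧
        {p : ℕ | ∃ _ : Fact p.Prime, zetaPadic p s ≠ 0}.Infinite := by
  have e0 : (Fin.cons two (fun _ : Fin 1 => s) : Fin 2 → MZVIndex) = ![two, s] := by
    funext i
    fin_cases i <;> rfl
  constructor
  · intro h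
    refine ⟨?_, h.mono ?_⟩
    · have h1 := independent (fun _ : Fin 1 => s) hUNA hS (X 0) (by
        refine h.mono ?_
        rintro p ⟨hp, ht, hne⟩
        refine ⟨hp, ?_, ?_⟩
        · rw [e0]
          exact ht
        · simpa using hne)
      simpa using h1
    · rintro p ⟨hp, -, hne⟩
      exact ⟨hp, hne⟩
  · rintro ⟨hind, hinf⟩
    refine hinf.mono ?_
    rintro p ⟨hp, hne⟩
    refine ⟨hp, ?_, hne⟩
    intro f hf
    have h2 := independent_sq hind
    have e1 : (fun i => mzv ((![two, s] : Fin 2 → MZVIndex) i)) = ![Real.pi ^ 2 / 6, mzv s] := by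
      funext i
      fin_cases i
      · exact mzv_two
      · rfl
    rw [e1] at hf
    have h3 : f = 0 := by
      have h4 : Function.Injective (MvPolynomial.aeval (R := ℚ) ![Real.pi ^ 2 / 6, mzv s]) := h2
      exact h4 (by rw [hf, map_zero])
    rw [h3, map_zero]

end Pool.Agent.Work.MP_03df5c_pi
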