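import Mathlib

/-!
# A fixed algebraic number is a `p`-adic unit for almost all `p`
-/

open MvPolynomial

namespace Pool.Agent.Work.MP_03df5c_pi

/-- An algebraic integer has norm at most one. -/
theorem norm_le_one_of_isIntegral {K : Type*} [NormedField K] [IsUltrametricDist K] (b : K)
    (hb : IsIntegral ℤ b) : ‖b‖ ≤ 1 := by
  obtain ⟨q, hq1, hq2⟩ := hb
  by_contra hlt
  push Not at hlt
  have hint : ∀ n : ℤ, ‖(n : K)‖ ≤ 1 := fun n => IsUltrametricDist.norm_intCast_le_one K n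
  rcases Nat.eq_zero_or_pos q.natDegree with h0 | hpos
  · have h1 : q = 1 := by
      rw [Polynomial.eq_C_of_natDegree_eq_zero h0] at hq1 ⊢
      have := hq1.leadingCoeff
      rw [Polynomial.leadingCoeff_C] at this
      rw [this, map_one]
    rw [h1] at hq2
    simp at hq2
  have h2 : b ^ q.natDegree = -∑ i ∈ Finset.range q.natDegree, (q.coeff i : K) * b ^ i := by
    rw [Polynomial.eval₂_eq_sum_range, Finset.sum_range_succ, hq1.coeff_natDegree] at hq2
    simp only [eq_intCast, Int.cast_one, one_mul] at hq2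
    rw [eq_neg_iff_add_eq_zero, add_comm]
    exact hq2
  have h3 : ‖b ^ q.natDegree‖ ≤ ‖b‖ ^ (q.natDegree - 1) := by
    rw [h2, norm_neg]
    apply IsUltrametricDist.norm_sum_le_of_forall_le_of_nonneg (by positivity)
    intro i hi
    rw [Finset.mem_range] at hi
    rw [norm_mul, norm_pow]
    calc ‖(q.coeff i : K)‖ * ‖b‖ ^ i ≤ 1 * ‖b‖ ^ (q.natDegree - 1) :=
          mul_le_mul (hint _) (pow_le_pow_right₀ hlt.le (by omega)) (by positivity) zero_le_one
      _ = _ := one_mul _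
  rw [norm_pow] at h3
  have h4 : ‖b‖ ^ (q.natDegree - 1) < ‖b‖ ^ q.natDegree :=
    pow_lt_pow_right₀ hlt (by omega)
  linarith

/-- An algebraic number has norm at most one for all large primes. -/
theorem norm_sigma_le (a : algebraicClosure ℚ ℂ) : ∃ p₀ : ℕ, ∀ (p : ℕ) [Fact p.Prime], p₀ ≤ p →
    ∀ σ : algebraicClosure ℚ ℂ →+* ℂ_[p], ‖σ a‖ ≤ 1 := by
  have hZ : IsAlgebraic ℤ (a : ℂ) := by
    have h1 : IsAlgebraic ℚ (a : ℂ) := by
      have := a.2
      rwa [mem_algebraicClosure_iff] at this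
    exact (IsFractionRing.isAlgebraic_iff ℤ ℚ ℂ).2 h1
  obtain ⟨y, hy0, hy⟩ := hZ.exists_integral_multiple
  have hy' : IsIntegral ℤ ((y : algebraicClosure ℚ ℂ) * a) := by
    have h1 : Function.Injective (algebraMap (algebraicClosure ℚ ℂ) ℂ) :=
      fun a b h => Subtype.ext h
    have h2 : IsIntegral ℤ ((algebraMap (algebraicClosure ℚ ℂ) ℂ) ((y : algebraicClosure ℚ ℂ) * a)) := by
      rw [map_mul, map_intCast]
      rw [zsmul_eq_mul] at hy
      exact hy
    exact (isIntegral_algebraMap_iff h1).1 h2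
  refine ⟨y.natAbs + 1, fun p _ hp σ => ?_⟩
  have h2 := map_isIntegral_int σ hy'
  have h3 := norm_le_one_of_isIntegral _ h2
  rw [map_mul, map_intCast, norm_mul] at h3
  have h4 : ‖(y : ℂ_[p])‖ = 1 := by
    have h1 : algebraMap ℚ_[p] ℂ_[p] (y : ℚ_[p]) = (y : ℂ_[p]) := map_intCast _ y
    rw [← h1, norm_algebraMap']
    have h5 : ¬ (p : ℤ) ∣ y := by
      intro hd
      have h6 := Int.natAbs_dvd_natAbs.2 hd
      rw [Int.natAbs_natCast] at h6
      have := Nat.le_of_dvd (Int.natAbs_pos.2 hy0) h6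
      omega
    have hpr : p.Prime := Fact.out
    exact Padic.norm_intCast_eq_one_iff.2
      ((Nat.prime_iff_prime_int.1 hpr).coprime_iff_not_dvd.2 h5).symm
  rw [h4, one_mul] at h3
  exact h3

/-- A non-zero algebraic number has norm one for all large primes. -/
theorem norm_sigma_eq (a : algebraicClosure ℚ ℂ) (ha : a ≠ 0) : ∃ p₀ : ℕ, ∀ (p : ℕ)
    [Fact p.Prime], p₀ ≤ p → ∀ σ : algebraicClosure ℚ ℂ →+* ℂ_[p], ‖σ a‖ = 1 := by
  obtain ⟨p1, h1⟩ := norm_sigma_le a
  obtain ⟨p2, h2⟩ := norm_sigma_le a⁻¹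
  refine ⟨max p1 p2, fun p _ hp σ => ?_⟩
  have h3 := h1 p ((le_max_left _ _).trans hp) σ
  have h4 := h2 p ((le_max_right _ _).trans hp) σ
  have h5 : ‖σ a‖ * ‖σ a⁻¹‖ = 1 := by
    rw [← norm_mul, ← map_mul, mul_inv_cancel₀ ha, map_one, norm_one]
  nlinarith [norm_nonneg (σ a), norm_nonneg (σ a⁻¹)]

end Pool.Agent.Work.MP_03df5c_pi
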