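import Pool.Agent.Work.MP_03df5c_pi.Sigma
import Pool.Agent.Work.MP_03df5c_pi.Unit

/-!
# Consequences of the transfer of relations for relations over `ℚ̄(π)`
-/

open MvPolynomial

namespace Pool.Agent.Work.MP_03df5c_pi

/-- The field of algebraic numbers in `ℂ`. -/
abbrev QB : Type := algebraicClosure ℚ ℂ

/-- Every rational relation between `π²/6, x 0, …` holds for `0, z 0, …`. -/
def Tr {m : ℕ} (x : Fin m → ℝ) {p : ℕ} [Fact p.Prime] (z : Fin m → ℚ_[p]) : Prop :=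
  ∀ f : MvPolynomial (Fin (m + 1)) ℚ,
    aeval (Fin.cons (Real.pi ^ 2 / 6) x : Fin (m + 1) → ℝ) f = 0 →
      aeval (Fin.cons 0 z : Fin (m + 1) → ℚ_[p]) f = 0

/-- Evaluation of a polynomial in `T` over the polynomials in `X`. -/
lemma aeval_rename_succ {m : ℕ} {R S : Type*} [CommRing R] [CommRing S] [Algebra R S]
    (f : MvPolynomial (Fin m) R) (t : S) (y : Fin m → S) :
    aeval (Fin.cons t y : Fin (m + 1) → S) (rename Fin.succ f) = aeval y f := by
  rw [aeval_rename]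
  rfl

lemma eval₂_map_rename_succ {m : ℕ} {K : Type*} [Field K] (σ : QB →+* K)
    (f : MvPolynomial (Fin m) ℚ) (y : Fin m → K) [Algebra ℚ K] :
    eval₂ σ (Fin.cons 0 y : Fin (m + 1) → K)
      (rename Fin.succ (MvPolynomial.map (algebraMap ℚ QB) f)) = aeval y f := by
  rw [eval₂_rename, eval₂_map, aeval_def]
  congr 1
  exact Subsingleton.elim _ _

lemma aeval_map_rename_succ {m : ℕ} (f : MvPolynomial (Fin m) ℚ) (t : ℂ) (y : Fin m → ℂ) :
    aeval (Fin.cons t y : Fin (m + 1) → ℂ)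
      (rename Fin.succ (MvPolynomial.map (algebraMap ℚ QB) f)) = aeval y f := by
  rw [aeval_rename, aeval_map_algebraMap]
  rfl

lemma aeval_ofReal {m : ℕ} (x : Fin m → ℝ) (f : MvPolynomial (Fin m) ℚ) :
    aeval (fun i => (x i : ℂ)) f = ((aeval x f : ℝ) : ℂ) :=
  MvPolynomial.aeval_algebraMap_apply ℂ x f

lemma aeval_padic {m p : ℕ} [Fact p.Prime] (z : Fin m → ℚ_[p]) (f : MvPolynomial (Fin m) ℚ) :
    aeval (fun i => algebraMap ℚ_[p] ℂ_[p] (z i)) f = algebraMap ℚ_[p] ℂ_[p] (aeval z f) :=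
  MvPolynomial.aeval_algebraMap_apply ℂ_[p] z f

/-- **One prime.** If `f n` does not vanish at the `p`-adic values for all `n ∈ ℤ`, the numbers
`π ^ n f n (x)` are linearly independent over the field of algebraic numbers. -/
theorem linearIndependent_pi {m p : ℕ} [Fact p.Prime] (x : Fin m → ℝ) (z : Fin m → ℚ_[p])
    (hT : Tr x z) (f : ℤ → MvPolynomial (Fin m) ℚ) (hf : ∀ n, aeval z (f n) ≠ 0) :
    LinearIndependent QB (fun n : ℤ => (Real.pi : ℂ) ^ n * ((aeval x (f n) : ℝ) : ℂ)) := by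
  obtain ⟨σ, hσ⟩ := exists_sigma x z hT
  rw [linearIndependent_iff']
  intro S c hc
  by_contra hcon
  push Not at hcon
  obtain ⟨i₀, hi₀, hne₀⟩ := hcon
  obtain ⟨n₀, hn₀, hmin⟩ := (S.filter (fun n => c n ≠ 0)).exists_min_image (fun n => n)
    ⟨i₀, by simp [hi₀, hne₀]⟩
  rw [Finset.mem_filter] at hn₀
  let F : MvPolynomial (Fin (m + 1)) QB := ∑ n ∈ S.filter (fun n => c n ≠ 0),
    C (c n) * X 0 ^ (n - n₀).toNat * rename Fin.succ (MvPolynomial.map (algebraMap ℚ QB) (f n))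
  have hpi : (Real.pi : ℂ) ≠ 0 := by exact_mod_cast Real.pi_ne_zero
  have hF : aeval (Fin.cons (Real.pi : ℂ) (fun i => (x i : ℂ)) : Fin (m + 1) → ℂ) F = 0 := by
    have h1 : aeval (Fin.cons (Real.pi : ℂ) (fun i => (x i : ℂ)) : Fin (m + 1) → ℂ) F =
        (Real.pi : ℂ) ^ (-n₀) *
          ∑ n ∈ S, c n • ((Real.pi : ℂ) ^ n * ((aeval x (f n) : ℝ) : ℂ)) := by
      rw [map_sum, Finset.mul_sum, ← Finset.sum_filter_add_sum_filter_not S (fun n => c n ≠ 0)
        (fun n => (Real.pi : ℂ) ^ (-n₀) * c n • ((Real.pi : ℂ) ^ n * ((aeval x (f n) : ℝ) : ℂ)))]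
      have h2 : ∑ n ∈ S.filter (fun n => ¬ c n ≠ 0), (Real.pi : ℂ) ^ (-n₀) *
          c n • ((Real.pi : ℂ) ^ n * ((aeval x (f n) : ℝ) : ℂ)) = 0 := by
        refine Finset.sum_eq_zero fun n hn => ?_
        rw [Finset.mem_filter, not_not] at hn
        rw [hn.2, zero_smul, mul_zero]
      rw [h2, add_zero]
      refine Finset.sum_congr rfl fun n hn => ?_
      rw [map_mul, map_mul, map_pow, aeval_X, aeval_C, aeval_map_rename_succ, aeval_ofReal,
        Fin.cons_zero, Algebra.smul_def]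
      have h3 : (Real.pi : ℂ) ^ (n - n₀).toNat = (Real.pi : ℂ) ^ (-n₀) * (Real.pi : ℂ) ^ n := by
        rw [← zpow_add₀ hpi, ← zpow_natCast, Int.toNat_of_nonneg (by
          have := hmin n hn
          omega)]
        congr 1
        ring
      rw [h3]
      ring
    rw [h1, hc, mul_zero]
  have h4 := hσ F hF
  have h5 : eval₂ σ (Fin.cons 0 (fun i => algebraMap ℚ_[p] ℂ_[p] (z i)) : Fin (m + 1) → ℂ_[p]) F
      = σ (c n₀) * algebraMap ℚ_[p] ℂ_[p] (aeval z (f n₀)) := by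
    rw [← coe_eval₂Hom, map_sum, Finset.sum_eq_single n₀]
    · rw [map_mul, map_mul, map_pow, coe_eval₂Hom, eval₂_map_rename_succ, aeval_padic, eval₂_C,
        sub_self, Int.toNat_zero, pow_zero, mul_one]
    · intro n hn hne
      have h6 := hmin n hn
      have h7 : (n - n₀).toNat ≠ 0 := by omega
      rw [map_mul, map_mul, map_pow, coe_eval₂Hom, eval₂_X, Fin.cons_zero, zero_pow h7]
      ring
    · intro h
      exact absurd (by simp [hn₀]) h
  rw [h5] at h4
  rcases mul_eq_zero.1 h4 with h | h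
  · exact hn₀.2 ((map_eq_zero σ).1 h)
  · exact hf n₀ ((map_eq_zero _).1 h)

end Pool.Agent.Work.MP_03df5c_pi
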