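import Pool.Agent.Work.MP_03df5c_pi.Main
import Pool.Agent.Work.MP_03df5c_h91.Indep

/-!
# Infinitely many primes
-/

open MvPolynomial

namespace Pool.Agent.Work.MP_03df5c_pi

/-- A polynomial with algebraic coefficients is close to its constant term at small points, for
all large primes. -/
theorem norm_eval₂_sub {n : ℕ} (F : MvPolynomial (Fin n) QB) : ∃ p₀ : ℕ, ∀ (p : ℕ)
    [Fact p.Prime], p₀ ≤ p → ∀ (σ : QB →+* ℂ_[p]) (y : Fin n → ℂ_[p]), (∀ i, ‖y i‖ < 1) →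
      ‖eval₂ σ y F‖ ≤ 1 ∧ ‖eval₂ σ y F - σ (constantCoeff F)‖ < 1 := by
  induction F using MvPolynomial.induction_on with
  | C a =>
    obtain ⟨p₀, h⟩ := norm_sigma_le a
    refine ⟨p₀, fun p _ hp σ y _ => ⟨?_, ?_⟩⟩
    · rw [eval₂_C]
      exact h p hp σ
    · rw [eval₂_C, constantCoeff_C, sub_self, norm_zero]
      exact one_pos
  | add f g hf hg =>
    obtain ⟨p1, h1⟩ := hf
    obtain ⟨p2, h2⟩ := hg
    refine ⟨max p1 p2, fun p _ hp σ y hy => ?_⟩
    obtain ⟨h3, h4⟩ := h1 p ((le_max_left _ _).trans hp) σ y hy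
    obtain ⟨h5, h6⟩ := h2 p ((le_max_right _ _).trans hp) σ y hy
    rw [eval₂_add, map_add, map_add]
    refine ⟨(IsUltrametricDist.norm_add_le_max _ _).trans (max_le h3 h5), ?_⟩
    have e : eval₂ σ y f + eval₂ σ y g - (σ (constantCoeff f) + σ (constantCoeff g)) =
        (eval₂ σ y f - σ (constantCoeff f)) + (eval₂ σ y g - σ (constantCoeff g)) := by ring
    rw [e]
    exact (IsUltrametricDist.norm_add_le_max _ _).trans_lt (max_lt h4 h6)
  | mul_X f i hf =>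
    obtain ⟨p1, h1⟩ := hf
    refine ⟨p1, fun p _ hp σ y hy => ?_⟩
    obtain ⟨h3, -⟩ := h1 p hp σ y hy
    have h4 : ‖eval₂ σ y (f * X i)‖ < 1 := by
      rw [eval₂_mul, eval₂_X, norm_mul]
      calc ‖eval₂ σ y f‖ * ‖y i‖ ≤ 1 * ‖y i‖ :=
            mul_le_mul_of_nonneg_right h3 (norm_nonneg _)
        _ < 1 := by rw [one_mul]; exact hy i
    refine ⟨h4.le, ?_⟩
    rw [map_mul, constantCoeff_X, mul_zero, map_zero, sub_zero]
    exact h4

/-- The same for rational coefficients. -/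
theorem norm_aeval_sub {n : ℕ} (f : MvPolynomial (Fin n) ℚ) : ∃ p₀ : ℕ, ∀ (p : ℕ)
    [Fact p.Prime], p₀ ≤ p → ∀ (y : Fin n → ℚ_[p]), (∀ i, ‖y i‖ < 1) →
      ‖aeval y f‖ ≤ 1 ∧ ‖aeval y f - ((constantCoeff f : ℚ) : ℚ_[p])‖ < 1 := by
  induction f using MvPolynomial.induction_on with
  | C a =>
    refine ⟨a.den + 1, fun p _ hp y _ => ⟨?_, ?_⟩⟩
    · rw [aeval_C]
      have h : ¬ p ∣ a.den := fun h => by
        have := Nat.le_of_dvd a.den_pos h
        omega
      simpa using Padic.norm_rat_le_one h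
    · rw [aeval_C, constantCoeff_C]
      simp
  | add f g hf hg =>
    obtain ⟨p1, h1⟩ := hf
    obtain ⟨p2, h2⟩ := hg
    refine ⟨max p1 p2, fun p _ hp y hy => ?_⟩
    obtain ⟨h3, h4⟩ := h1 p ((le_max_left _ _).trans hp) y hy
    obtain ⟨h5, h6⟩ := h2 p ((le_max_right _ _).trans hp) y hy
    rw [map_add, map_add]
    refine ⟨(IsUltrametricDist.norm_add_le_max _ _).trans (max_le h3 h5), ?_⟩
    push_cast
    have e : aeval y f + aeval y g -
        (((constantCoeff f : ℚ) : ℚ_[p]) + ((constantCoeff g : ℚ) : ℚ_[p])) =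
        (aeval y f - ((constantCoeff f : ℚ) : ℚ_[p])) +
          (aeval y g - ((constantCoeff g : ℚ) : ℚ_[p])) := by ring
    rw [e]
    exact (IsUltrametricDist.norm_add_le_max _ _).trans_lt (max_lt h4 h6)
  | mul_X f i hf =>
    obtain ⟨p1, h1⟩ := hf
    refine ⟨p1, fun p _ hp y hy => ?_⟩
    obtain ⟨h3, -⟩ := h1 p hp y hy
    have h4 : ‖aeval y (f * X i)‖ < 1 := by
      rw [map_mul, aeval_X, norm_mul]
      calc ‖aeval y f‖ * ‖y i‖ ≤ 1 * ‖y i‖ :=
            mul_le_mul_of_nonneg_right h3 (norm_nonneg _)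
        _ < 1 := by rw [one_mul]; exact hy i
    refine ⟨h4.le, ?_⟩
    have e : constantCoeff (f * X i) = 0 := by rw [map_mul, constantCoeff_X, mul_zero]
    rw [e, Rat.cast_zero, sub_zero]
    exact h4

/-- The primes for which the relations transfer and the `p`-adic values are small. -/
def Good {m : ℕ} (x : Fin m → ℝ) (z : (p : ℕ) → [Fact p.Prime] → Fin m → ℚ_[p]) : Set ℕ :=
  {p : ℕ | ∃ _ : Fact p.Prime, (∀ i, ‖z p i‖ < 1) ∧ Tr x (z p)}

variable {m : ℕ} (x : Fin m → ℝ) (z : (p : ℕ) → [Fact p.Prime] → Fin m → ℚ_[p])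

theorem cons_lt {p : ℕ} [Fact p.Prime] {w : Fin m → ℚ_[p]} (hz : ∀ i, ‖w i‖ < 1) (i : Fin (m + 1)) :
    ‖(Fin.cons 0 (fun i => algebraMap ℚ_[p] ℂ_[p] (w i)) : Fin (m + 1) → ℂ_[p]) i‖ < 1 := by
  refine Fin.cases ?_ (fun j => ?_) i
  · rw [Fin.cons_zero, norm_zero]
    exact one_pos
  · rw [Fin.cons_succ, norm_algebraMap']
    exact hz j

/-- **Infinitely many primes**: a relation `F(π, x) = 0` has constant term zero. -/
theorem constantCoeff_eq_zero (hinf : (Good x z).Infinite) (F : MvPolynomial (Fin (m + 1)) QB)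
    (hF : aeval (Fin.cons (Real.pi : ℂ) (fun i => (x i : ℂ)) : Fin (m + 1) → ℂ) F = 0) :
    constantCoeff F = 0 := by
  by_contra hne
  obtain ⟨p1, h1⟩ := norm_eval₂_sub F
  obtain ⟨p2, h2⟩ := norm_sigma_eq (constantCoeff F) hne
  obtain ⟨p, ⟨hp, hz, hT⟩, hgt⟩ := hinf.exists_gt (max p1 p2)
  obtain ⟨σ, hσ⟩ := exists_sigma x (z p) hT
  have h3 := (h1 p ((le_max_left _ _).trans hgt.le) σ _ (cons_lt hz)).2
  rw [hσ F hF, zero_sub, norm_neg, h2 p ((le_max_right _ _).trans hgt.le) σ] at h3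
  exact lt_irrefl _ h3

/-- One more lemma: dividing by `T`. -/
theorem exists_reduced (y : ℂ) (hp : ∀ (s r : Polynomial QB),
      y * Polynomial.aeval (Real.pi : ℂ) s = Polynomial.aeval (Real.pi : ℂ) r →
        s.coeff 0 = 0 → r.coeff 0 = 0) :
    ∀ (n : ℕ) (s r : Polynomial QB), s.natDegree = n → s ≠ 0 →
      y * Polynomial.aeval (Real.pi : ℂ) s = Polynomial.aeval (Real.pi : ℂ) r →
      ∃ s' r' : Polynomial QB, s'.coeff 0 ≠ 0 ∧
        y * Polynomial.aeval (Real.pi : ℂ) s' = Polynomial.aeval (Real.pi : ℂ) r' := by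
  have hpi : (Real.pi : ℂ) ≠ 0 := by exact_mod_cast Real.pi_ne_zero
  intro n
  induction n with
  | zero =>
    intro s r hdeg hs h
    refine ⟨s, r, ?_, h⟩
    intro hc
    apply hs
    rw [Polynomial.eq_C_of_natDegree_eq_zero hdeg, hc, Polynomial.C_0]
  | succ n ih =>
    intro s r hdeg hs h
    by_cases hc : s.coeff 0 = 0
    · have hrc := hp s r h hc
      have h1 : Polynomial.divX s * Polynomial.X = s := by
        have := Polynomial.divX_mul_X_add s
        rw [hc, Polynomial.C_0, add_zero] at this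
        exact this
      have h2 : Polynomial.divX r * Polynomial.X = r := by
        have := Polynomial.divX_mul_X_add r
        rw [hrc, Polynomial.C_0, add_zero] at this
        exact this
      refine ih (Polynomial.divX s) (Polynomial.divX r) ?_ ?_ ?_
      · rw [Polynomial.natDegree_divX_eq_natDegree_tsub_one, hdeg]
        rfl
      · intro h0
        rw [h0, zero_mul] at h1
        exact hs h1.symm
      · rw [← h1, ← h2, map_mul, map_mul, Polynomial.aeval_X, ← mul_assoc] at h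
        exact mul_right_cancel₀ hpi h
    · exact ⟨s, r, hc, h⟩

/-- `y b(π) = a(π)` gives `f(z) b(0) = a(0)` for one embedding. -/
theorem rational_relation {p : ℕ} [Fact p.Prime] (w : Fin m → ℚ_[p]) (σ : QB →+* ℂ_[p])
    (hσ : ∀ F : MvPolynomial (Fin (m + 1)) QB,
        aeval (Fin.cons (Real.pi : ℂ) (fun i => (x i : ℂ)) : Fin (m + 1) → ℂ) F = 0 →
          eval₂ σ (Fin.cons 0 (fun i => algebraMap ℚ_[p] ℂ_[p] (w i)) : Fin (m + 1) → ℂ_[p]) F
            = 0)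
    (f : MvPolynomial (Fin m) ℚ) (s r : Polynomial QB)
    (h : ((aeval x f : ℝ) : ℂ) * Polynomial.aeval (Real.pi : ℂ) s =
      Polynomial.aeval (Real.pi : ℂ) r) :
    algebraMap ℚ_[p] ℂ_[p] (aeval w f) * σ (s.coeff 0) = σ (r.coeff 0) := by
  have h1 := hσ (rename Fin.succ (MvPolynomial.map (algebraMap ℚ QB) f) *
    Polynomial.aeval (X 0) s - Polynomial.aeval (X 0) r) (by
      rw [map_sub, map_mul, aeval_map_rename_succ, aeval_ofReal, ← Polynomial.aeval_algHom_apply,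
        ← Polynomial.aeval_algHom_apply, aeval_X, Fin.cons_zero, h, sub_self])
  have h2 : ∀ q : Polynomial QB,
      eval₂ σ (Fin.cons 0 (fun i => algebraMap ℚ_[p] ℂ_[p] (w i)) : Fin (m + 1) → ℂ_[p])
        (Polynomial.aeval (X 0 : MvPolynomial (Fin (m + 1)) QB) q) = σ (q.coeff 0) := by
    intro q
    rw [Polynomial.aeval_def, ← coe_eval₂Hom, Polynomial.hom_eval₂]
    have e : (eval₂Hom σ (Fin.cons 0 (fun i => algebraMap ℚ_[p] ℂ_[p] (w i)) :
        Fin (m + 1) → ℂ_[p])).comp (algebraMap QB (MvPolynomial (Fin (m + 1)) QB)) = σ := by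
      ext a
      simp [MvPolynomial.algebraMap_eq]
    rw [e, coe_eval₂Hom, eval₂_X, Fin.cons_zero, Polynomial.eval₂_at_zero]
  rw [eval₂_sub, eval₂_mul, eval₂_map_rename_succ, aeval_padic, h2, h2, sub_eq_zero] at h1
  exact h1

/-- **Infinitely many primes**: an element of `ℚ[x]` in `ℚ̄(π)` is rational `p`-adically. -/
theorem aeval_eq_of_mem (hinf : (Good x z).Infinite) (f : MvPolynomial (Fin m) ℚ)
    (hf : ((aeval x f : ℝ) : ℂ) ∈ IntermediateField.adjoin (algebraicClosure ℚ ℂ) {(Real.pi : ℂ)})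
    (p : ℕ) [Fact p.Prime] (hT : Tr x (z p)) :
    aeval (z p) f = ((constantCoeff f : ℚ) : ℚ_[p]) := by
  rw [IntermediateField.mem_adjoin_simple_iff] at hf
  obtain ⟨r, s, hrs⟩ := hf
  -- the embeddings
  have hemb : ∀ (q : ℕ) [Fact q.Prime], Tr x (z q) → ∃ σ : QB →+* ℂ_[q], ∀ s r : Polynomial QB,
      ((aeval x f : ℝ) : ℂ) * Polynomial.aeval (Real.pi : ℂ) s =
        Polynomial.aeval (Real.pi : ℂ) r →
      algebraMap ℚ_[q] ℂ_[q] (aeval (z q) f) * σ (s.coeff 0) = σ (r.coeff 0) := by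
    intro q _ hq
    obtain ⟨σ, hσ⟩ := exists_sigma x (z q) hq
    exact ⟨σ, rational_relation x (z q) σ hσ f⟩
  have hdiv : ∀ (s r : Polynomial QB),
      ((aeval x f : ℝ) : ℂ) * Polynomial.aeval (Real.pi : ℂ) s =
        Polynomial.aeval (Real.pi : ℂ) r → s.coeff 0 = 0 → r.coeff 0 = 0 := by
    intro s r h hs
    obtain ⟨σ, hσ⟩ := hemb p hT
    have h1 := hσ s r h
    rw [hs, map_zero, mul_zero] at h1
    exact (map_eq_zero σ).1 h1.symm
  obtain ⟨s₀, r₀, hs₀, h₀⟩ : ∃ s₀ r₀ : Polynomial QB, s₀ ≠ 0 ∧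
      ((aeval x f : ℝ) : ℂ) * Polynomial.aeval (Real.pi : ℂ) s₀ =
        Polynomial.aeval (Real.pi : ℂ) r₀ := by
    by_cases hs : Polynomial.aeval (Real.pi : ℂ) s = 0
    · refine ⟨1, 0, one_ne_zero, ?_⟩
      rw [hrs, hs, div_zero, zero_mul, map_zero]
    · refine ⟨s, r, ?_, ?_⟩
      · intro h
        rw [h, map_zero] at hs
        exact hs rfl
      · rw [hrs, div_mul_cancel₀ _ hs]
  obtain ⟨s', r', hs', h'⟩ := exists_reduced _ hdiv _ s₀ r₀ rfl hs₀ h₀
  -- the algebraic number `c`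
  have hval : ∀ (q : ℕ) [Fact q.Prime], Tr x (z q) → ∃ σ : QB →+* ℂ_[q],
      algebraMap ℚ_[q] ℂ_[q] (aeval (z q) f) = σ (r'.coeff 0 / s'.coeff 0) := by
    intro q _ hq
    obtain ⟨σ, hσ⟩ := hemb q hq
    refine ⟨σ, ?_⟩
    have h1 := hσ s' r' h'
    rw [map_div₀, eq_div_iff ((map_ne_zero σ).2 hs')]
    exact h1
  have hc : r'.coeff 0 / s'.coeff 0 = algebraMap ℚ QB (constantCoeff f) := by
    by_contra hne
    obtain ⟨p1, h1⟩ := norm_aeval_sub f
    obtain ⟨p2, h2⟩ := norm_sigma_eq (r'.coeff 0 / s'.coeff 0 - algebraMap ℚ QB (constantCoeff f))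
      (sub_ne_zero.2 hne)
    obtain ⟨q, ⟨hq, hz, hTq⟩, hgt⟩ := hinf.exists_gt (max p1 p2)
    obtain ⟨σ, hσ⟩ := hval q hTq
    have h3 := (h1 q ((le_max_left _ _).trans hgt.le) (z q) hz).2
    have h4 := h2 q ((le_max_right _ _).trans hgt.le) σ
    rw [map_sub, ← hσ] at h4
    have h5 : σ (algebraMap ℚ QB (constantCoeff f)) =
        algebraMap ℚ_[q] ℂ_[q] ((constantCoeff f : ℚ) : ℚ_[q]) := by
      rw [eq_ratCast, map_ratCast, map_ratCast]
    rw [h5, ← map_sub, norm_algebraMap'] at h4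
    rw [h4] at h3
    exact lt_irrefl _ h3
  obtain ⟨σ, hσ⟩ := hval p hT
  rw [hc, eq_ratCast, map_ratCast] at hσ
  have h6 : algebraMap ℚ_[p] ℂ_[p] (aeval (z p) f) =
      algebraMap ℚ_[p] ℂ_[p] ((constantCoeff f : ℚ) : ℚ_[p]) := by
    rw [hσ, map_ratCast]
  exact (algebraMap ℚ_[p] ℂ_[p]).injective h6

end Pool.Agent.Work.MP_03df5c_pi
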