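import Pool.Agent.Work.MP_03df5c_pi.Main2

/-!
# Algebraic dependence over `ℚ(π)`
-/

open MvPolynomial

namespace Pool.Agent.Work.MP_03df5c_pi

open Pool.Agent.Work.MP_03df5c_h91 (aeval_cons exists_relation_coeff_ne_zero
  dvd_num_of_norm_lt_one)

variable {m : ℕ} (x : Fin m → ℝ) (z : (p : ℕ) → [Fact p.Prime] → Fin m → ℚ_[p])

/-- **Any set of primes**: if `π, x` are algebraically dependent, there is one non-zero polynomial
vanishing at the `p`-adic values for all primes for which the relations transfer. -/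
theorem exists_relation
    (hdep : ¬ AlgebraicIndependent ℚ (Fin.cons Real.pi x : Fin (m + 1) → ℝ)) :
    ∃ g : MvPolynomial (Fin m) ℚ, g ≠ 0 ∧ ∀ (p : ℕ) [Fact p.Prime], Tr x (z p) →
      aeval (z p) g = 0 := by
  rw [algebraicIndependent_iff] at hdep
  push Not at hdep
  obtain ⟨f, hf0, hf⟩ := hdep
  obtain ⟨f', hf'0, hf'⟩ := exists_relation_coeff_ne_zero Real.pi_ne_zero x _ f hf rfl hf0
  refine ⟨_, hf', fun p _ hT => ?_⟩
  obtain ⟨σ, hσ⟩ := exists_sigma x (z p) hT
  have h1 := hσ (MvPolynomial.map (algebraMap ℚ QB) f') (by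
    rw [aeval_map_algebraMap]
    have e : (Fin.cons (Real.pi : ℂ) (fun i => (x i : ℂ)) : Fin (m + 1) → ℂ) =
        fun i => (((Fin.cons Real.pi x : Fin (m + 1) → ℝ) i : ℝ) : ℂ) := by
      funext i
      refine Fin.cases ?_ (fun j => ?_) i
      · simp
      · simp
    rw [e, aeval_ofReal, hf'0, Complex.ofReal_zero])
  have h2 : aeval (Fin.cons 0 (z p) : Fin (m + 1) → ℚ_[p]) f' = 0 := by
    have e : (Fin.cons 0 (fun i => algebraMap ℚ_[p] ℂ_[p] (z p i)) : Fin (m + 1) → ℂ_[p]) =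
        fun i => algebraMap ℚ_[p] ℂ_[p] ((Fin.cons 0 (z p) : Fin (m + 1) → ℚ_[p]) i) := by
      funext i
      refine Fin.cases ?_ (fun j => ?_) i
      · simp
      · simp
    have h3 : eval₂ σ (Fin.cons 0 (fun i => algebraMap ℚ_[p] ℂ_[p] (z p i)) :
        Fin (m + 1) → ℂ_[p]) (MvPolynomial.map (algebraMap ℚ QB) f') =
        algebraMap ℚ_[p] ℂ_[p] (aeval (Fin.cons 0 (z p) : Fin (m + 1) → ℚ_[p]) f') := by
      rw [eval₂_map, e, ← aeval_padic, aeval_def]
      congr 1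
      exact Subsingleton.elim _ _
    rw [h3] at h1
    exact (map_eq_zero _).1 h1
  rw [aeval_cons, Polynomial.eval₂_at_zero] at h2
  exact h2

/-- The transfer passes to one element of `ℚ[x]`. -/
theorem Tr.comp {x : Fin m → ℝ} {p : ℕ} [Fact p.Prime] {w : Fin m → ℚ_[p]} (h : Tr x w)
    (f : MvPolynomial (Fin m) ℚ) :
    Tr (fun _ : Fin 1 => aeval x f) (fun _ : Fin 1 => aeval w f) := by
  intro F hF
  have key : ∀ {A : Type} [CommRing A] [Algebra ℚ A] (t : A) (y : Fin m → A),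
      aeval (Fin.cons t y : Fin (m + 1) → A) (aeval (Fin.cons (X 0)
        (fun _ : Fin 1 => rename Fin.succ f) : Fin 2 → MvPolynomial (Fin (m + 1)) ℚ) F) =
      aeval (Fin.cons t (fun _ : Fin 1 => aeval y f) : Fin 2 → A) F := by
    intro A _ _ t y
    rw [← AlgHom.comp_apply, comp_aeval]
    congr 2
    funext i
    refine Fin.cases ?_ (fun j => ?_) i
    · simp
    · simp only [Fin.cons_succ]
      rw [aeval_rename]
      rfl
  have h1 := h (aeval (Fin.cons (X 0)
        (fun _ : Fin 1 => rename Fin.succ f) : Fin 2 → MvPolynomial (Fin (m + 1)) ℚ) F) (by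
    rw [key]
    exact hF)
  rw [key] at h1
  exact h1

/-- **Infinitely many primes**: if `f(z p) ≠ f(0)` for infinitely many of the primes then `f(x)` and
`π` are algebraically independent. -/
theorem independent_of_infinite (f : MvPolynomial (Fin m) ℚ)
    (hinf : {p : ℕ | ∃ _ : Fact p.Prime, (∀ i, ‖z p i‖ < 1) ∧ Tr x (z p) ∧
      aeval (z p) f ≠ ((constantCoeff f : ℚ) : ℚ_[p])}.Infinite) :
    AlgebraicIndependent ℚ (Fin.cons Real.pi (fun _ => aeval x f) : Fin 2 → ℝ) := by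
  by_contra hdep
  obtain ⟨g, h0, hg⟩ := exists_relation (fun _ : Fin 1 => aeval x f)
    (fun p _ _ => aeval (z p) f) hdep
  -- pass to one variable
  obtain ⟨G, hG⟩ : ∃ G : Polynomial ℚ, G = (MvPolynomial.uniqueAlgEquiv ℚ (Fin 1) g).comp
      (Polynomial.X + Polynomial.C (constantCoeff f)) := ⟨_, rfl⟩
  have hG0 : G ≠ 0 := by
    rw [hG]
    intro h
    have h1 : MvPolynomial.uniqueAlgEquiv ℚ (Fin 1) g = 0 := by
      have h2 := congrArg (fun q : Polynomial ℚ =>
        q.comp (Polynomial.X - Polynomial.C (constantCoeff f))) h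
      simp only [Polynomial.comp_assoc, Polynomial.zero_comp] at h2
      simpa using h2
    exact h0 ((MvPolynomial.uniqueAlgEquiv ℚ (Fin 1)).injective (by rw [h1, map_zero]))
  obtain ⟨G1, hG1, hnd⟩ := Polynomial.exists_eq_pow_rootMultiplicity_mul_and_not_dvd G hG0 0
  rw [Polynomial.C_0, sub_zero] at hG1 hnd
  rw [Polynomial.X_dvd_iff] at hnd
  obtain ⟨g1, hg1⟩ : ∃ g1 : MvPolynomial (Fin 1) ℚ, g1 = Polynomial.aeval (MvPolynomial.X 0) G1 :=
    ⟨_, rfl⟩
  have hcc : MvPolynomial.constantCoeff g1 = G1.coeff 0 := by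
    rw [hg1, Polynomial.aeval_def, Polynomial.hom_eval₂, MvPolynomial.constantCoeff_X,
      Polynomial.eval₂_at_zero]
    simp
  obtain ⟨P1, hP1⟩ := norm_aeval_sub g1
  obtain ⟨P2, hP2⟩ := norm_aeval_sub f
  obtain ⟨p, ⟨hp, hz, hT, hne⟩, hgt⟩ := hinf.exists_gt (max (max P1 P2) (G1.coeff 0).num.natAbs)
  have hle1 : P1 ≤ p := ((le_max_left _ _).trans (le_max_left _ _)).trans hgt.le
  have hle2 : P2 ≤ p := ((le_max_right _ _).trans (le_max_left _ _)).trans hgt.le
  have h1 := hg p (Tr.comp hT f)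
  obtain ⟨t, ht⟩ : ∃ t : ℚ_[p], t = aeval (z p) f - ((constantCoeff f : ℚ) : ℚ_[p]) := ⟨_, rfl⟩
  have ht0 : t ≠ 0 := by
    rw [ht]
    exact sub_ne_zero.2 hne
  have ht1 : ‖t‖ < 1 := by
    rw [ht]
    exact (hP2 p hle2 (z p) hz).2
  have key : ∀ y : ℚ_[p], MvPolynomial.aeval (fun _ : Fin 1 => y) g =
      Polynomial.aeval y (MvPolynomial.uniqueAlgEquiv ℚ (Fin 1) g) := by
    intro y
    have e : (MvPolynomial.aeval (fun _ : Fin 1 => y) : MvPolynomial (Fin 1) ℚ →ₐ[ℚ] ℚ_[p])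
        = (Polynomial.aeval (R := ℚ) y).comp
          (MvPolynomial.uniqueAlgEquiv ℚ (Fin 1)).toAlgHom := by
      ext i
      simp
    rw [e]
    rfl
  have h2 : Polynomial.aeval t G = 0 := by
    rw [hG, Polynomial.aeval_comp]
    have e : Polynomial.aeval t (Polynomial.X + Polynomial.C (constantCoeff f) : Polynomial ℚ) =
        aeval (z p) f := by
      rw [map_add, Polynomial.aeval_X, Polynomial.aeval_C, ht, eq_ratCast]
      ring
    rw [e, ← key]
    exact h1
  rw [hG1, map_mul, map_pow, Polynomial.aeval_X] at h2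
  have h3 := (mul_eq_zero.1 h2).resolve_left (pow_ne_zero _ ht0)
  have h4 : aeval (fun _ : Fin 1 => t) g1 = 0 := by
    rw [hg1, ← Polynomial.aeval_algHom_apply, MvPolynomial.aeval_X]
    exact h3
  have h5 := (hP1 p hle1 (fun _ => t) (fun _ => ht1)).2
  rw [h4, hcc, zero_sub, norm_neg] at h5
  have h6 := dvd_num_of_norm_lt_one h5
  have h7 : (G1.coeff 0).num.natAbs < p := (le_max_right _ _).trans_lt hgt
  have h8 := Int.natAbs_dvd_natAbs.2 h6
  rw [Int.natAbs_natCast] at h8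
  exact absurd (Nat.le_of_dvd (Int.natAbs_pos.2 (Rat.num_ne_zero.2 hnd)) h8) (not_le.2 h7)

end Pool.Agent.Work.MP_03df5c_pi
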