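import Pool.Agent.Work.MP_03df5c_pi.Main3
import Pool.Agent.Work.MP_03df5c_pi.Two
import Pool.Agent.Work.MP_03df5c_one.Nonzero

/-!
# Depth one: products of odd zeta values
-/

open MvPolynomial

namespace Pool.Agent.Work.MP_03df5c_pi

open Pool.Agent.Work.MP_03df5c_h91

variable {m : ℕ} {k : Fin m → ℕ}

theorem tr_of_transfers {p : ℕ} [Fact p.Prime]
    (h : Pool.Agent.Work.MP_03df5c_h91.Transfers (m + 1) (Fin.cons 2 k) p) :
    Tr (fun i => zetaR (k i)) (fun i => zetaP p (k i)) := by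
  intro f hf
  have h1 := h f (by
    rw [comp_cons zetaR k, zetaR_two]
    exact hf)
  rw [comp_cons (zetaP p) k, zetaP_even even_two (le_refl 2)] at h1
  exact h1

theorem zetaP_odd_ne_zero {p : ℕ} [Fact p.Prime] {n : ℕ} (hn : 3 ≤ n) (ho : Odd n)
    (hp : p = 2 ∨ p = 3) : zetaP p n ≠ 0 := by
  obtain ⟨j, rfl⟩ := ho
  refine Pool.Agent.Work.MP_03df5c_one.zetaP_ne_zero_of_dvd (by omega) ?_
  rcases hp with rfl | rfl
  · exact one_dvd _
  · exact Dvd.intro _ rfl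

theorem aeval_prod {A : Type*} [CommRing A] [Algebra ℚ A] (x : Fin m → A) (d : Fin m → ℕ) :
    aeval x (∏ i, (X i : MvPolynomial (Fin m) ℚ) ^ d i) = ∏ i, x i ^ d i := by
  rw [map_prod]
  refine Finset.prod_congr rfl fun i _ => ?_
  rw [map_pow, aeval_X]

theorem linearIndependent_products (hk : ∀ i, 3 ≤ k i ∧ Odd (k i)) {p : ℕ} [Fact p.Prime]
    (hp : p = 2 ∨ p = 3 ∨ ∀ i, zetaP p (k i) ≠ 0)
    (h : Pool.Agent.Work.MP_03df5c_h91.Transfers (m + 1) (Fin.cons 2 k) p) (e : ℤ → Fin m → ℕ) :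
    LinearIndependent (algebraicClosure ℚ ℂ)
      (fun n : ℤ => (Real.pi : ℂ) ^ n * ∏ i, (zetaR (k i) : ℂ) ^ e n i) := by
  have hne : ∀ i, zetaP p (k i) ≠ 0 := by
    rcases hp with hp | hp | hp
    · exact fun i => zetaP_odd_ne_zero (hk i).1 (hk i).2 (Or.inl hp)
    · exact fun i => zetaP_odd_ne_zero (hk i).1 (hk i).2 (Or.inr hp)
    · exact hp
  have h1 := linearIndependent_pi (fun i => zetaR (k i)) (fun i => zetaP p (k i))
    (tr_of_transfers h) (fun n => ∏ i, (X i : MvPolynomial (Fin m) ℚ) ^ e n i) (fun n => by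
      rw [aeval_prod]
      exact Finset.prod_ne_zero_iff.2 fun i _ => pow_ne_zero _ (hne i))
  have e1 : (fun n : ℤ => (Real.pi : ℂ) ^ n * ((aeval (fun i => zetaR (k i))
      (∏ i, (X i : MvPolynomial (Fin m) ℚ) ^ e n i) : ℝ) : ℂ)) =
      fun n : ℤ => (Real.pi : ℂ) ^ n * ∏ i, (zetaR (k i) : ℂ) ^ e n i := by
    funext n
    rw [aeval_prod]
    push_cast
    rfl
  rw [← e1]
  exact h1

theorem good_infinite_odd (hk : ∀ i, 2 ≤ k i)
    (hinf : {p : ℕ | ∃ _ : Fact p.Prime,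
      Pool.Agent.Work.MP_03df5c_h91.Transfers (m + 1) (Fin.cons 2 k) p}.Infinite) :
    (Good (fun i => zetaR (k i)) (fun p _ i => zetaP p (k i))).Infinite := by
  refine (hinf.sdiff (Set.finite_Iio (∑ i, k i + 2))).mono ?_
  rintro p ⟨⟨hp, ht⟩, hlt⟩
  refine ⟨hp, fun i => ?_, tr_of_transfers ht⟩
  have h1 : k i ≤ ∑ i, k i := Finset.single_le_sum (fun _ _ => Nat.zero_le _) (Finset.mem_univ i)
  have h2 : ∑ i, k i + 2 ≤ p := by simpa using hlt
  obtain ⟨u, hu1, hu2, -⟩ := exists_unit_part (p := p) (hk i) (by omega)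
  show ‖zetaP p (k i)‖ < 1
  rw [hu1, norm_mul, norm_pow]
  have h3 : ‖(p : ℚ_[p])‖ ^ k i < 1 :=
    pow_lt_one₀ (norm_nonneg _) Padic.norm_p_lt_one (by have := hk i; omega)
  calc ‖(p : ℚ_[p])‖ ^ k i * ‖u‖ ≤ ‖(p : ℚ_[p])‖ ^ k i * 1 := by gcongr
    _ < 1 := by rwa [mul_one]

theorem product_not_mem (hk : ∀ i, 3 ≤ k i ∧ Odd (k i)) {p : ℕ} [Fact p.Prime]
    (hp : p = 2 ∨ p = 3 ∨ ∀ i, zetaP p (k i) ≠ 0)
    (h : Pool.Agent.Work.MP_03df5c_h91.Transfers (m + 1) (Fin.cons 2 k) p)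
    (hinf : {p : ℕ | ∃ _ : Fact p.Prime,
      Pool.Agent.Work.MP_03df5c_h91.Transfers (m + 1) (Fin.cons 2 k) p}.Infinite)
    (d : Fin m → ℕ) (hd : d ≠ 0) :
    (∏ i, (zetaR (k i) : ℂ) ^ d i) ∉
      IntermediateField.adjoin (algebraicClosure ℚ ℂ) {(Real.pi : ℂ)} := by
  intro hmem
  have hne : ∀ i, zetaP p (k i) ≠ 0 := by
    rcases hp with hp | hp | hp
    · exact fun i => zetaP_odd_ne_zero (hk i).1 (hk i).2 (Or.inl hp)
    · exact fun i => zetaP_odd_ne_zero (hk i).1 (hk i).2 (Or.inr hp)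
    · exact hp
  have h1 := aeval_eq_of_mem (fun i => zetaR (k i)) (fun p _ i => zetaP p (k i))
    (good_infinite_odd (fun i => by have := (hk i).1; omega) hinf)
    (∏ i, (X i : MvPolynomial (Fin m) ℚ) ^ d i) (by
      rw [aeval_prod]
      push_cast
      exact hmem) p (tr_of_transfers h)
  obtain ⟨j, hj⟩ : ∃ j, d j ≠ 0 := by
    by_contra hcon
    push Not at hcon
    exact hd (funext hcon)
  have h2 : constantCoeff (∏ i, (X i : MvPolynomial (Fin m) ℚ) ^ d i) = 0 := by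
    rw [map_prod]
    refine Finset.prod_eq_zero (Finset.mem_univ j) ?_
    rw [map_pow, constantCoeff_X, zero_pow hj]
  rw [aeval_prod, h2, Rat.cast_zero] at h1
  exact Finset.prod_ne_zero_iff.2 (fun i _ => pow_ne_zero _ (hne i)) h1

end Pool.Agent.Work.MP_03df5c_pi
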