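import Pool.Agent.Work.MP_03df5c_pi.Ext

/-!
# Relations over the field of algebraic numbers between `π` and the periods
-/

open MvPolynomial

namespace Pool.Agent.Work.MP_03df5c_pi

theorem sigma_of_hom {m : ℕ} {p : ℕ} [Fact p.Prime] (A : Subalgebra ℚ ℂ) (φ : A →+* ℂ_[p])
    (q : A) (hq : (q : ℂ) = (Real.pi : ℂ) ^ 2 / 6) (hφq : φ q = 0) (x : Fin m → A) :
    ∃ σ : algebraicClosure ℚ ℂ →+* ℂ_[p],
      ∀ F : MvPolynomial (Fin (m + 1)) (algebraicClosure ℚ ℂ),
        aeval (Fin.cons (Real.pi : ℂ) (fun i => (x i : ℂ)) : Fin (m + 1) → ℂ) F = 0 →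
          eval₂ σ (Fin.cons 0 (fun i => φ (x i)) : Fin (m + 1) → ℂ_[p]) F = 0 := by
  obtain ⟨Φ, hΦ⟩ := exists_extension (A := A) (B := integralClosure A ℂ)
    (fun a b h => Subtype.ext (congrArg (fun t : integralClosure A ℂ => (t : ℂ)) h)) φ
  have hK : ∀ a : algebraicClosure ℚ ℂ, algebraMap (algebraicClosure ℚ ℂ) ℂ a ∈
      (integralClosure A ℂ).toSubring := by
    intro a
    have h1 : IsIntegral ℚ (a : ℂ) := by
      have := a.2
      rw [mem_algebraicClosure_iff] at this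
      exact this.isIntegral
    exact h1.tower_top
  have h6 : ((6 * q : A) : ℂ) = 6 * ((Real.pi : ℂ) ^ 2 / 6) := by
    rw [← hq]
    have h7 := map_mul A.val 6 q
    rw [map_ofNat] at h7
    exact h7
  have hpi : (Real.pi : ℂ) ∈ integralClosure A ℂ := by
    refine ⟨Polynomial.X ^ 2 - Polynomial.C (6 * q), Polynomial.monic_X_pow_sub_C _ two_ne_zero, ?_⟩
    rw [Polynomial.eval₂_sub, Polynomial.eval₂_X_pow, Polynomial.eval₂_C]
    have : algebraMap A ℂ (6 * q) = 6 * ((Real.pi : ℂ) ^ 2 / 6) := h6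
    rw [this]
    ring
  let ι : algebraicClosure ℚ ℂ →+* integralClosure A ℂ :=
    (algebraMap (algebraicClosure ℚ ℂ) ℂ).codRestrict (integralClosure A ℂ).toSubring hK
  let u : Fin (m + 1) → integralClosure A ℂ :=
    Fin.cons ⟨Real.pi, hpi⟩ (fun i => algebraMap A (integralClosure A ℂ) (x i))
  refine ⟨Φ.comp ι, fun F hF => ?_⟩
  have h0 : Φ ⟨Real.pi, hpi⟩ = 0 := by
    have h1 : (⟨Real.pi, hpi⟩ : integralClosure A ℂ) ^ 2 = algebraMap A _ (6 * q) := by
      apply Subtype.ext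
      change (Real.pi : ℂ) ^ 2 = ((6 * q : A) : ℂ)
      rw [h6]
      ring
    have h2 := congrArg Φ h1
    rw [map_pow, hΦ, map_mul, hφq, mul_zero] at h2
    exact pow_eq_zero_iff two_ne_zero |>.1 h2
  have h1 : eval₂ ι u F = 0 := by
    apply Subtype.ext
    have h2 := MvPolynomial.eval₂_comp_left (algebraMap (integralClosure A ℂ) ℂ) ι u F
    change algebraMap (integralClosure A ℂ) ℂ (eval₂ ι u F) = 0
    rw [h2]
    refine Eq.trans ?_ hF
    rw [aeval_def]
    congr 1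
    funext i
    refine Fin.cases ?_ (fun i => ?_) i
    · rfl
    · rfl
  have h3 := MvPolynomial.eval₂_comp_left Φ ι u F
  rw [h1, map_zero] at h3
  refine Eq.trans ?_ h3.symm
  congr 1
  funext i
  refine Fin.cases ?_ (fun i => ?_) i
  · simp [u, h0]
  · simp [u, hΦ]

/-- If the rational relations between `π²/6, x 0, …` hold for `0, z 0, …`, there is an embedding
`σ` of the field of algebraic numbers such that every relation `F(π, x) = 0` with algebraic
coefficients gives `F^σ(0, z) = 0`. -/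
theorem exists_sigma {m : ℕ} {p : ℕ} [Fact p.Prime] (x : Fin m → ℝ) (z : Fin m → ℚ_[p])
    (hT : ∀ f : MvPolynomial (Fin (m + 1)) ℚ,
      aeval (Fin.cons (Real.pi ^ 2 / 6) x : Fin (m + 1) → ℝ) f = 0 →
        aeval (Fin.cons 0 z : Fin (m + 1) → ℚ_[p]) f = 0) :
    ∃ σ : algebraicClosure ℚ ℂ →+* ℂ_[p],
      ∀ F : MvPolynomial (Fin (m + 1)) (algebraicClosure ℚ ℂ),
        aeval (Fin.cons (Real.pi : ℂ) (fun i => (x i : ℂ)) : Fin (m + 1) → ℂ) F = 0 →
          eval₂ σ (Fin.cons 0 (fun i => algebraMap ℚ_[p] ℂ_[p] (z i)) : Fin (m + 1) → ℂ_[p]) F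
            = 0 := by
  obtain ⟨φ, hφ⟩ := exists_hom _ _ hT
  obtain ⟨σ, hσ⟩ := sigma_of_hom _ φ ⟨_, ⟨X 0, rfl⟩⟩ (by simp) (by
      have := hφ 0
      simp only [Fin.cons_zero, map_zero] at this
      rw [← this]
      congr 1
      apply Subtype.ext
      simp) (fun i : Fin m => ⟨_, ⟨X i.succ, rfl⟩⟩)
  refine ⟨σ, fun F hF => ?_⟩
  have h1 := hσ F (by
    refine Eq.trans ?_ hF
    congr 2
    funext i
    refine Fin.cases ?_ (fun i => ?_) i
    · simp
    · simp)
  refine Eq.trans ?_ h1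
  congr 1
  funext i
  refine Fin.cases ?_ (fun i => ?_) i
  · simp
  · have := hφ i.succ
    simp only [Fin.cons_succ] at this
    simp only [Fin.cons_succ]
    rw [← this]
    congr 1
    apply Subtype.ext
    simp

end Pool.Agent.Work.MP_03df5c_pi
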